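import Pool.Agent.H51.DM.Targets

set_option autoImplicit false

open Finset

namespace Pool.Agent.H51.DM

open Classical in
theorem pf_BLK : T_BLK := by
  intro k m p _ _ χ hχ a b L hU hL l l' hne g
  obtain ⟨ε, t⟩ := g
  have hu : ∀ s, ∃ u : (ZMod p)ˣ, (u : ZMod p) = b s l - b s l' ∧
      χ u = Multiplicative.ofAdd (L s l l') := fun s => hL s l l' hne
  choose u hu1 hu2 using hu
  by_cases ht : t = 0
  · subst ht
    simp only [if_true]
    rw [Finset.card_eq_zero, Finset.filter_eq_empty_iff]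
    rintro ⟨s, κ⟩ - h
    have h2 := (Prod.mk.inj h).2
    simp only at h2
    rw [← mul_sub, ← hu1] at h2
    have h3 : ((κ : (ZMod p)ˣ) * u s : (ZMod p)ˣ) ≠ (0 : ZMod p) := Units.ne_zero _
    apply h3
    rw [Units.val_mul]
    exact h2
  · simp only [ht, if_false]
    let τ : (ZMod p)ˣ := Units.mk0 t ht
    refine Eq.trans ?_ (hU l l' hne ε (Multiplicative.toAdd (χ τ)))
    refine Finset.card_bij (fun x _ => x.1) ?_ ?_ ?_
    · rintro ⟨s, κ⟩ h
      simp only [Finset.mem_filter, Finset.mem_univ, true_and, Prod.mk.injEq] at h ⊢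
      refine ⟨h.1, ?_⟩
      have h2 := h.2
      rw [← mul_sub, ← hu1] at h2
      have h3 : (κ : (ZMod p)ˣ) * u s = τ := by
        apply Units.ext
        rw [Units.val_mul]
        exact h2
      rw [← h3, map_mul, hu2, (MonoidHom.mem_ker).mp κ.2, one_mul]
      rfl
    · rintro ⟨s, κ⟩ h ⟨s', κ'⟩ h' heq
      simp only [Finset.mem_filter, Finset.mem_univ, true_and, Prod.mk.injEq] at h h' heq
      subst heq
      have h2 := h.2
      have h2' := h'.2
      rw [← mul_sub, ← hu1] at h2 h2'
      have h3 : (κ : (ZMod p)ˣ) * u s = (κ' : (ZMod p)ˣ) * u s := by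
        apply Units.ext
        rw [Units.val_mul, Units.val_mul, h2, h2']
      have h4 := mul_right_cancel h3
      rw [Subtype.ext h4]
    · intro s h
      simp only [Finset.mem_filter, Finset.mem_univ, true_and] at h
      have hk : τ * (u s)⁻¹ ∈ χ.ker := by
        rw [MonoidHom.mem_ker, map_mul, map_inv, hu2, h.2]
        simp
      refine ⟨(s, ⟨τ * (u s)⁻¹, hk⟩), ?_, rfl⟩
      simp only [Finset.mem_filter, Finset.mem_univ, true_and, Prod.mk.injEq]
      refine ⟨h.1, ?_⟩
      rw [← mul_sub, ← hu1, ← Units.val_mul, inv_mul_cancel_right]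
      rfl

end Pool.Agent.H51.DM
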