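import Pool.Agent.H51.DM.GAD
import Pool.Agent.H51.DM.BLK

set_option autoImplicit false

open Finset

namespace Pool.Agent.H51.DM

open Classical in
/-- replacing the values on the image of an injective map -/
theorem sum_replace {X A : Type} [Fintype X] [Fintype A] (F : A → X) (hF : Function.Injective F)
    (u u' : X → ℤ) (v : A → ℤ) (h0 : ∀ x, (¬ ∃ a, F a = x) → u' x = u x)
    (h1 : ∀ a, u' (F a) - u (F a) = v a) : ∑ x, u' x = ∑ x, u x + ∑ a, v a := by
  have h : ∑ x, (u' x - u x) = ∑ a, v a := by
    rw [← Finset.sum_subset (Finset.subset_univ (univ.image F))]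
    · rw [Finset.sum_image (fun x _ y _ hxy => hF hxy)]
      exact Finset.sum_congr rfl (fun a _ => h1 a)
    · intro x _ hx
      rw [h0 x, sub_self]
      rintro ⟨a, rfl⟩
      exact hx (Finset.mem_image_of_mem F (Finset.mem_univ a))
  rw [Finset.sum_sub_distrib] at h
  linarith

theorem card_ker {p m : ℕ} [Fact p.Prime] [NeZero m] (χ : (ZMod p)ˣ →* Multiplicative (ZMod m))
    (hχ : Function.Surjective χ) : Nat.card χ.ker * m = p - 1 := by
  have h1 := Subgroup.card_mul_index χ.ker
  rw [Subgroup.index_ker, MonoidHom.range_eq_top.mpr hχ] at h1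
  have h2 : Nat.card (⊤ : Subgroup (Multiplicative (ZMod m))) = m := by
    rw [Subgroup.card_top]
    exact Nat.card_zmod m
  rw [h2, Nat.card_eq_fintype_card (α := (ZMod p)ˣ), ZMod.card_units] at h1
  exact h1

open Classical in
theorem pf_ASM : T_ASM := by
  intro k m p _ _ χ hχ a f b L w w' hP hU hL hsw hw
  obtain ⟨hf, ha⟩ := hP
  let F : Pr k × Fin 4 → Fin (4 * m) × χ.ker := fun z => (f z, 1)
  have hF : Function.Injective F := by
    intro z z' h
    exact hf (Prod.mk.inj h).1
  let old : Fin (4 * m) × χ.ker → Fin k → ZMod 2 × ZMod p :=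
    fun x l => (a x.1 l, ((x.2 : (ZMod p)ˣ) : ZMod p) * b x.1 l)
  let new : Fin (4 * m) × χ.ker → Fin k → ZMod 2 × ZMod p := fun x l =>
    if h : ∃ z, F z = x then nw h.choose.1 (b (f (h.choose.1, 0))) (b (f (h.choose.1, 2)))
      h.choose.2 l else old x l
  let fr : Fin 4 → Fin k → ZMod 2 × ZMod p := fun r l =>
    (0, match r with
      | 0 => w l
      | 1 => - w l
      | 2 => w' l
      | 3 => - w' l)
  have hnew : ∀ z l, new (F z) l = nw z.1 (b (f (z.1, 0))) (b (f (z.1, 2))) z.2 l := by
    intro z l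
    have h : ∃ y, F y = F z := ⟨z, rfl⟩
    have h2 : h.choose = z := hF h.choose_spec
    simp only [new]
    rw [dif_pos h, h2]
  have hnew0 : ∀ x l, (¬ ∃ z, F z = x) → new x l = old x l := by
    intro x l h
    simp only [new]
    rw [dif_neg h]
  have hold : ∀ z l, old (F z) l = od z.1 (b (f (z.1, 0))) (b (f (z.1, 2))) z.2 l := by
    rintro ⟨e, r⟩ l
    simp only [old, F, OneMemClass.coe_one, Units.val_one, one_mul, ha]
    fin_cases r
    · simp [od]
    · simp [od, (hsw e l).1]
    · simp [od]
    · simp [od, (hsw e l).2]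
  refine ⟨(Fin (4 * m) × χ.ker) ⊕ Fin 4, inferInstance,
    fun l x => Sum.elim (fun x => new x l) (fun r => fr r l) x, ?_, ?_⟩
  · rw [Fintype.card_sum, Fintype.card_prod, Fintype.card_fin, Fintype.card_fin]
    have h1 := card_ker χ hχ
    rw [Nat.card_eq_fintype_card] at h1
    have h2 : 1 < p := Nat.Prime.one_lt Fact.out
    have h3 : 4 * m * Fintype.card χ.ker = 4 * (p - 1) := by
      rw [← h1]; ring
    rw [h3]
    omega
  · intro l l' hl g
    have key : ∑ x : Fin (4 * m) × χ.ker, (if new x l - new x l' = g then 1 else 0 : ℤ) =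
        ∑ x : Fin (4 * m) × χ.ker, (if old x l - old x l' = g then 1 else 0 : ℤ) +
        ∑ z : Pr k × Fin 4, ((if nw z.1 (b (f (z.1, 0))) (b (f (z.1, 2))) z.2 l -
          nw z.1 (b (f (z.1, 0))) (b (f (z.1, 2))) z.2 l' = g then 1 else 0 : ℤ) -
          (if od z.1 (b (f (z.1, 0))) (b (f (z.1, 2))) z.2 l -
          od z.1 (b (f (z.1, 0))) (b (f (z.1, 2))) z.2 l' = g then 1 else 0)) := by
      refine sum_replace F hF _ _ _ ?_ ?_
      · intro x hx
        rw [hnew0 x l hx, hnew0 x l' hx]
      · intro z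
        rw [hnew, hnew, hold, hold]
    have hb : ∑ x : Fin (4 * m) × χ.ker, (if old x l - old x l' = g then 1 else 0 : ℤ) =
        if g.2 = 0 then 0 else 2 := by
      have h1 := pf_BLK k m p χ hχ a b L hU hL l l' hl.ne g
      rw [Finset.sum_boole]
      simp only [old, Prod.mk_sub_mk]
      rw [h1]
      split_ifs <;> simp
    have hz : ∑ z : Pr k × Fin 4, ((if nw z.1 (b (f (z.1, 0))) (b (f (z.1, 2))) z.2 l -
          nw z.1 (b (f (z.1, 0))) (b (f (z.1, 2))) z.2 l' = g then 1 else 0 : ℤ) -
          (if od z.1 (b (f (z.1, 0))) (b (f (z.1, 2))) z.2 l -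
          od z.1 (b (f (z.1, 0))) (b (f (z.1, 2))) z.2 l' = g then 1 else 0)) =
        2 * (if g = (0, 0) then 1 else 0) + 2 * (if g = (1, 0) then 1 else 0) -
        (if g = (0, w l - w l') then 1 else 0) - (if g = (0, w l' - w l) then 1 else 0) -
        (if g = (0, w' l - w' l') then 1 else 0) - (if g = (0, w' l' - w' l) then 1 else 0) := by
      rw [Fintype.sum_prod_type]
      let e0 : Pr k := ⟨(l, l'), hl⟩
      rw [Finset.sum_eq_single e0]
      · refine (pf_GAD p k e0 (b (f (e0, 0))) (b (f (e0, 2))) l l' hl g).trans ?_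
        have h1 := (hw e0).1
        have h2 := (hw e0).2
        simp only [e0] at h1 h2 ⊢
        have h3 : b (f (⟨(l, l'), hl⟩, 0)) l' - b (f (⟨(l, l'), hl⟩, 0)) l = w l' - w l := by
          rw [← neg_sub, h1, neg_sub]
        have h4 : b (f (⟨(l, l'), hl⟩, 2)) l' - b (f (⟨(l, l'), hl⟩, 2)) l = w' l' - w' l := by
          rw [← neg_sub, h2, neg_sub]
        rw [if_pos trivial, h1, h2, h3, h4]
      · intro e _ he
        refine (pf_GAD p k e (b (f (e, 0))) (b (f (e, 2))) l l' hl g).trans ?_
        rw [if_neg]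
        intro h
        exact he (Subtype.ext h)
      · intro h
        exact absurd (Finset.mem_univ _) h
    have hfr : ∑ r : Fin 4, (if fr r l - fr r l' = g then 1 else 0 : ℤ) =
        (if g = (0, w l - w l') then 1 else 0) + (if g = (0, w l' - w l) then 1 else 0) +
        (if g = (0, w' l - w' l') then 1 else 0) + (if g = (0, w' l' - w' l) then 1 else 0) := by
      simp only [Fin.sum_univ_four, gad_one, fr, Prod.mk_sub_mk, sub_self]
      rw [show - w l - - w l' = w l' - w l by ring, show - w' l - - w' l' = w' l' - w' l by ring]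
    have tot : ((univ.filter (fun x : (Fin (4 * m) × χ.ker) ⊕ Fin 4 =>
        Sum.elim (fun x => new x l) (fun r => fr r l) x -
        Sum.elim (fun x => new x l') (fun r => fr r l') x = g)).card : ℤ) = 2 := by
      rw [← Finset.sum_boole, Fintype.sum_sum_type]
      change ∑ x : Fin (4 * m) × χ.ker, (if new x l - new x l' = g then 1 else 0 : ℤ) +
        ∑ r : Fin 4, (if fr r l - fr r l' = g then 1 else 0 : ℤ) = 2
      rw [key, hb, hz, hfr]
      obtain ⟨ε, t⟩ := g
      by_cases ht : t = 0
      · subst ht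
        have h2 : ∀ ε : ZMod 2, ε = 0 ∨ ε = 1 := by decide
        rcases h2 ε with h2 | h2
        · subst h2
          simp
        · subst h2
          simp
      · have h1 : ∀ c : ZMod 2, ¬ ((ε, t) = (c, (0 : ZMod p))) := by
          intro c h
          exact ht (Prod.mk.inj h).2
        rw [if_neg (h1 0), if_neg (h1 1), if_neg ht]
        ring
    exact_mod_cast tot

end Pool.Agent.H51.DM
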