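import Pool.Agent.H51.DM.Targets

set_option autoImplicit false

open Finset

namespace Pool.Agent.H51.DM

theorem pf_CHI : T_CHI := by
  intro p m _ hm hp
  haveI : NeZero m := ⟨hm.ne'⟩
  have hcard : Nat.card (ZMod p)ˣ = p - 1 := by
    rw [Nat.card_eq_fintype_card, ZMod.card_units]
  have hdvd : m ∣ p - 1 := (Nat.modEq_iff_dvd' (Nat.Prime.one_lt Fact.out).le).mp hp.symm
  let E := (zmodCyclicMulEquiv (G := (ZMod p)ˣ) inferInstance)
  have hd2 : m ∣ Nat.card (ZMod p)ˣ := hcard ▸ hdvd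
  let c := ZMod.castHom hd2 (ZMod m)
  refine ⟨(AddMonoidHom.toMultiplicative c.toAddMonoidHom).comp E.symm.toMonoidHom, ?_⟩
  have h1 : Function.Surjective c := ZMod.castHom_surjective hd2
  intro y
  obtain ⟨x, hx⟩ := h1 (Multiplicative.toAdd y)
  refine ⟨E (Multiplicative.ofAdd x), ?_⟩
  simp [hx]

end Pool.Agent.H51.DM
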