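import Pool.Agent.H51.DM.ASM
import Pool.Agent.H51.DM.CHI

set_option autoImplicit false

open Finset

namespace Pool.Agent.H51.DM

theorem lb_neg {p m : ℕ} [Fact p.Prime] (χ : (ZMod p)ˣ →* Multiplicative (ZMod m)) (x : ZMod p)
    (c : ZMod m) (h : Lb χ x c) : Lb χ (-x) (c + Multiplicative.toAdd (χ (-1))) := by
  obtain ⟨u, hu, hc⟩ := h
  refine ⟨-1 * u, ?_, ?_⟩
  · rw [Units.val_mul, Units.val_neg, Units.val_one, hu]
    ring
  · rw [map_mul, hc, ofAdd_add, ofAdd_toAdd, mul_comm]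

theorem lb_mul {p m : ℕ} [Fact p.Prime] (χ : (ZMod p)ˣ →* Multiplicative (ZMod m)) (x : ZMod p)
    (c : ZMod m) (κ : (ZMod p)ˣ) (hκ : χ κ = 1) (h : Lb χ x c) : Lb χ ((κ : ZMod p) * x) c := by
  obtain ⟨u, hu, hc⟩ := h
  refine ⟨κ * u, ?_, ?_⟩
  · rw [Units.val_mul, hu]
  · rw [map_mul, hκ, one_mul, hc]

/-- scaling a vector so that one difference is prescribed -/
theorem scale {k p m : ℕ} [Fact p.Prime] (χ : (ZMod p)ˣ →* Multiplicative (ZMod m))
    (L : Fin k → Fin k → ZMod m) (b w : Fin k → ZMod p) (i j : Fin k)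
    (hb : ∀ l l', l ≠ l' → Lb χ (b l - b l') (L l l')) (hij : i ≠ j)
    (hw : Lb χ (w i - w j) (L i j)) :
    ∃ V : Fin k → ZMod p, V i - V j = w i - w j ∧
      ∀ l l', l ≠ l' → Lb χ (V l - V l') (L l l') := by
  obtain ⟨u, hu, hc⟩ := hb i j hij
  obtain ⟨v, hv, hd⟩ := hw
  have hκ : χ (v * u⁻¹) = 1 := by
    rw [map_mul, map_inv, hc, hd, mul_inv_cancel]
  refine ⟨fun l => ((v * u⁻¹ : (ZMod p)ˣ) : ZMod p) * b l, ?_, ?_⟩
  · rw [← mul_sub, ← hu, ← Units.val_mul, inv_mul_cancel_right, hv]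
  · intro l l' hl
    simp only
    rw [← mul_sub]
    exact lb_mul χ _ _ _ hκ (hb l l' hl)

open Classical in
theorem pf_CHO (hLAB : T_LAB) (hEMB : T_EMB) : T_CHO := by
  intro k m a f hm hkm hB hP
  obtain ⟨p₀, hp₀⟩ := hEMB k m hm
  refine ⟨p₀, fun p hp hpp hmod => ?_⟩
  have : Fact p.Prime := ⟨hp⟩
  have : NeZero m := ⟨hm.ne'⟩
  obtain ⟨χ, hχ⟩ := pf_CHI p m hm hmod
  have hν : Multiplicative.toAdd (χ (-1)) + Multiplicative.toAdd (χ (-1)) = 0 := by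
    rw [← toAdd_mul, ← map_mul, neg_one_mul, neg_neg, map_one, toAdd_one]
  obtain ⟨L, lam, mu, hU, hanti, hlm, hsw⟩ := hLAB k m _ a f hkm hν hB hP
  have hemb := hp₀ p hpp χ hχ
  -- all pairs
  have hall : ∀ (M : Fin k → Fin k → ZMod m) (b : Fin k → ZMod p),
      (∀ l l', l ≠ l' → M l' l = M l l' + Multiplicative.toAdd (χ (-1))) →
      (∀ l l', l < l' → Lb χ (b l - b l') (M l l')) →
      ∀ l l', l ≠ l' → Lb χ (b l - b l') (M l l') := by
    intro M b hM hb l l' hl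
    rcases lt_or_gt_of_ne hl with h | h
    · exact hb l l' h
    · have h1 := lb_neg χ _ _ (hb l' l h)
      rw [neg_sub] at h1
      rw [hM l' l hl.symm]
      exact h1
  have hb0 : ∀ s, ∃ b : Fin k → ZMod p, ∀ l l', l ≠ l' → Lb χ (b l - b l') (L s l l') := by
    intro s
    obtain ⟨b, hb⟩ := hemb (L s)
    exact ⟨b, hall (L s) b (hanti s) hb⟩
  choose b0 hb0 using hb0
  obtain ⟨w, hw⟩ := hemb (fun l l' => if h : l < l' then lam ⟨(l, l'), h⟩ else 0)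
  obtain ⟨w', hw'⟩ := hemb (fun l l' => if h : l < l' then mu ⟨(l, l'), h⟩ else 0)
  have hwe : ∀ e : Pr k, Lb χ (w e.1.1 - w e.1.2) (L (f (e, 0)) e.1.1 e.1.2) := by
    intro e
    have h1 := hw e.1.1 e.1.2 e.2
    rw [dif_pos e.2] at h1
    rw [(hlm e).1]
    exact h1
  have hwe' : ∀ e : Pr k, Lb χ (w' e.1.1 - w' e.1.2) (L (f (e, 2)) e.1.1 e.1.2) := by
    intro e
    have h1 := hw' e.1.1 e.1.2 e.2
    rw [dif_pos e.2] at h1
    rw [(hlm e).2]
    exact h1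
  have hV : ∀ e : Pr k, ∃ V : Fin k → ZMod p, V e.1.1 - V e.1.2 = w e.1.1 - w e.1.2 ∧
      ∀ l l', l ≠ l' → Lb χ (V l - V l') (L (f (e, 0)) l l') := fun e =>
    scale χ (L (f (e, 0))) (b0 (f (e, 0))) w e.1.1 e.1.2 (hb0 _) (ne_of_lt e.2) (hwe e)
  have hU' : ∀ e : Pr k, ∃ V : Fin k → ZMod p, V e.1.1 - V e.1.2 = w' e.1.1 - w' e.1.2 ∧
      ∀ l l', l ≠ l' → Lb χ (V l - V l') (L (f (e, 2)) l l') := fun e =>
    scale χ (L (f (e, 2))) (b0 (f (e, 2))) w' e.1.1 e.1.2 (hb0 _) (ne_of_lt e.2) (hwe' e)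
  choose V hV1 hV2 using hV
  choose U hU1 hU2 using hU'
  let pl : Pr k × Fin 4 → Fin k → ZMod p := fun z l =>
    match z.2 with
    | 0 => V z.1 l
    | 1 => V z.1 (sw z.1 l)
    | 2 => U z.1 l
    | 3 => U z.1 (sw z.1 l)
  let b : Fin (4 * m) → Fin k → ZMod p := fun s =>
    if h : ∃ z, f z = s then pl h.choose else b0 s
  have hbf : ∀ z, b (f z) = pl z := by
    intro z
    have h : ∃ y, f y = f z := ⟨z, rfl⟩
    have h2 : h.choose = z := hP.1 h.choose_spec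
    simp only [b]
    rw [dif_pos h, h2]
  have hbn : ∀ s, (¬ ∃ z, f z = s) → b s = b0 s := by
    intro s h
    simp only [b]
    rw [dif_neg h]
  refine pf_ASM k m p χ hχ a f b L w w' hP hU ?_ ?_ ?_
  · intro s l l' hl
    by_cases h : ∃ z, f z = s
    · obtain ⟨⟨e, r⟩, rfl⟩ := h
      rw [hbf]
      have hsl : sw e l ≠ sw e l' := fun h => hl ((sw e).injective h)
      fin_cases r
      · exact hV2 e l l' hl
      · have h1 := hV2 e _ _ hsl
        rw [← (hsw e l l' hl).1] at h1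
        exact h1
      · exact hU2 e l l' hl
      · have h1 := hU2 e _ _ hsl
        rw [← (hsw e l l' hl).2] at h1
        exact h1
    · rw [hbn s h]
      exact hb0 s l l' hl
  · intro e l
    rw [hbf, hbf, hbf, hbf]
    exact ⟨rfl, rfl⟩
  · intro e
    rw [hbf, hbf]
    exact ⟨hV1 e, hU1 e⟩

end Pool.Agent.H51.DM
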