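import Pool.Agent.H51.DM.Targets

set_option autoImplicit false

open Finset

namespace Pool.Agent.H51.DM

theorem pf_CRT : T_CRT := by
  intro p k hp h2 h
  obtain ⟨I, hI, D, hc, hD⟩ := h
  have hco : Nat.Coprime 2 p := by
    rw [Nat.Prime.coprime_iff_not_dvd Nat.prime_two]
    intro hd
    have := (Nat.prime_dvd_prime_iff_eq Nat.prime_two hp).mp hd
    omega
  let E := ZMod.chineseRemainder hco
  have hcard : Fintype.card (Fin (4 * p)) = Fintype.card I := by simp [hc]
  let φ := Fintype.equivOfCardEq hcard
  have main : ∀ i j : Fin k, i < j → ∀ x : ZMod (2 * p),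
      (univ.filter (fun l : Fin (4 * p) => E.symm (D i (φ l)) - E.symm (D j (φ l)) = x)).card
        = 2 := by
    intro i j hij x
    refine Eq.trans ?_ (hD i j hij (E x))
    refine Finset.card_bij (fun l _ => φ l) ?_ ?_ ?_
    · intro l hl
      simp only [Finset.mem_filter, Finset.mem_univ, true_and] at hl ⊢
      rw [← hl, map_sub, E.apply_symm_apply, E.apply_symm_apply]
    · intro l _ l' _ h
      exact φ.injective h
    · intro y hy
      simp only [Finset.mem_filter, Finset.mem_univ, true_and] at hy
      refine ⟨φ.symm y, ?_, φ.apply_symm_apply y⟩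
      simp only [Finset.mem_filter, Finset.mem_univ, true_and]
      rw [φ.apply_symm_apply, ← map_sub, hy, E.symm_apply_apply]
  refine ⟨fun i l => E.symm (D i (φ l)), ?_⟩
  intro i j hij x
  rcases lt_or_gt_of_ne hij with h | h
  · exact main i j h x
  · refine Eq.trans ?_ (main j i h (-x))
    congr 1
    ext l
    simp only [Finset.mem_filter, Finset.mem_univ, true_and]
    constructor
    · intro h
      rw [← h, neg_sub]
    · intro h
      rw [← neg_sub, h, neg_neg]

end Pool.Agent.H51.DM
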