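import Pool.Agent.H51.DM.MOM

set_option autoImplicit false

open Finset

namespace Pool.Agent.H51.DM

open Classical in
/-- few vertices have few neighbours in `Y` with some label -/
theorem bad_count {p m : ℕ} [Fact p.Prime] [NeZero m]
    (χ : (ZMod p)ˣ →* Multiplicative (ZMod m)) (hχ : Function.Surjective χ) (Y : Finset (ZMod p))
    (hY : 4 ≤ Y.card) (c : ZMod m) :
    (((univ : Finset (ZMod p)).filter (fun x =>
      ((Y.filter (fun y => Lb χ (x - y) c)).card : ℝ) < (Y.card : ℝ) / (2 * m))).card : ℝ) *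
      (Y.card : ℝ) ≤ 16 * (m : ℝ) ^ 2 * p := by
  have hm : (0 : ℝ) < m := Nat.cast_pos.mpr (NeZero.pos m)
  have h := pf_MOM p m χ hχ Y
  set B := (univ : Finset (ZMod p)).filter (fun x =>
      ((Y.filter (fun y => Lb χ (x - y) c)).card : ℝ) < (Y.card : ℝ) / (2 * m)) with hB
  have hY4 : (4 : ℝ) ≤ Y.card := by exact_mod_cast hY
  have h1 : ∀ x ∈ B, ((Y.card : ℝ) / (4 * m)) ^ 2 ≤
      ∑ c : ZMod m, (((Y.filter (fun y => Lb χ (x - y) c)).card : ℝ) -
        ((Y.erase x).card : ℝ) / m) ^ 2 := by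
    intro x hx
    have hx1 : ((Y.filter (fun y => Lb χ (x - y) c)).card : ℝ) < (Y.card : ℝ) / (2 * m) :=
      (Finset.mem_filter.mp hx).2
    have h2 : (Y.card : ℝ) - 1 ≤ ((Y.erase x).card : ℝ) := by
      have := Finset.pred_card_le_card_erase (s := Y) (a := x)
      have h3 : Y.card ≤ (Y.erase x).card + 1 := by omega
      have h4 : (Y.card : ℝ) ≤ ((Y.erase x).card : ℝ) + 1 := by exact_mod_cast h3
      linarith
    have h3 : (Y.card : ℝ) / (4 * m) ≤ ((Y.erase x).card : ℝ) / m -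
        ((Y.filter (fun y => Lb χ (x - y) c)).card : ℝ) := by
      have h4 : ((Y.card : ℝ) - 1) / m ≤ ((Y.erase x).card : ℝ) / m := by gcongr
      have h5 : (Y.card : ℝ) / (4 * m) + (Y.card : ℝ) / (2 * m) ≤ ((Y.card : ℝ) - 1) / m := by
        rw [div_add_div _ _ (by positivity) (by positivity), div_le_div_iff₀ (by positivity) hm]
        nlinarith [mul_pos hm hm, mul_pos (mul_pos hm hm) hm]
      linarith
    have h6 : 0 ≤ (Y.card : ℝ) / (4 * m) := by positivity
    have h7 : ((Y.card : ℝ) / (4 * m)) ^ 2 ≤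
        (((Y.filter (fun y => Lb χ (x - y) c)).card : ℝ) - ((Y.erase x).card : ℝ) / m) ^ 2 := by
      rw [← neg_sub, neg_sq, neg_sub] at *
      nlinarith
    refine h7.trans ?_
    exact Finset.single_le_sum
      (f := fun c => (((Y.filter (fun y => Lb χ (x - y) c)).card : ℝ) -
        ((Y.erase x).card : ℝ) / m) ^ 2) (fun c _ => sq_nonneg _) (Finset.mem_univ c)
  have h2 : (B.card : ℝ) * ((Y.card : ℝ) / (4 * m)) ^ 2 ≤ p * Y.card := by
    refine le_trans ?_ h
    rw [← nsmul_eq_mul, ← Finset.sum_const]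
    refine (Finset.sum_le_sum h1).trans ?_
    exact Finset.sum_le_sum_of_subset_of_nonneg (Finset.subset_univ _)
      (fun x _ _ => Finset.sum_nonneg (fun c _ => sq_nonneg _))
  have h3 : (0 : ℝ) < Y.card := by linarith
  have h4 : (B.card : ℝ) * (Y.card : ℝ) * ((Y.card : ℝ) / (16 * m ^ 2)) ≤
      (16 * (m : ℝ) ^ 2 * p) * ((Y.card : ℝ) / (16 * m ^ 2)) := by
    have e1 : (B.card : ℝ) * (Y.card : ℝ) * ((Y.card : ℝ) / (16 * m ^ 2)) =
        (B.card : ℝ) * ((Y.card : ℝ) / (4 * m)) ^ 2 := by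
      field_simp; ring
    have e2 : (16 * (m : ℝ) ^ 2 * p) * ((Y.card : ℝ) / (16 * m ^ 2)) = p * Y.card := by
      field_simp
    rw [e1, e2]
    exact h2
  exact le_of_mul_le_mul_right h4 (by positivity)

open Classical in
/-- embedding into given sets -/
theorem embed (m : ℕ) (hm : 0 < m) : ∀ (k : ℕ) (δ : ℝ), 0 < δ → ∃ p₀ : ℕ, ∀ (p : ℕ)
    [Fact p.Prime], p₀ ≤ p → ∀ χ : (ZMod p)ˣ →* Multiplicative (ZMod m), Function.Surjective χ →
    ∀ (L : Fin k → Fin k → ZMod m) (X : Fin k → Finset (ZMod p)),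
    (∀ l, δ * p ≤ ((X l).card : ℝ)) → ∃ b : Fin k → ZMod p, (∀ l, b l ∈ X l) ∧
    ∀ l l' : Fin k, l < l' → Lb χ (b l - b l') (L l l') := by
  have hm' : NeZero m := ⟨hm.ne'⟩
  have hmr : (0 : ℝ) < m := Nat.cast_pos.mpr hm
  intro k
  induction k with
  | zero =>
    intro δ _
    exact ⟨0, fun p _ _ χ _ L X _ => ⟨fun l => l.elim0, fun l => l.elim0, fun l => l.elim0⟩⟩
  | succ k ih =>
    intro δ hδ
    obtain ⟨p₁, hp₁⟩ := ih (δ / (2 * m)) (by positivity)
    obtain ⟨p₂, hp₂⟩ := exists_nat_gt (4 / δ + (k * (16 * (m : ℝ) ^ 2) / δ + 1) / δ)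
    refine ⟨max p₁ p₂, fun p _ hp χ hχ L X hX => ?_⟩
    have hpr : 4 / δ + (k * (16 * (m : ℝ) ^ 2) / δ + 1) / δ < p :=
      hp₂.trans_le (by exact_mod_cast (le_max_right _ _).trans hp)
    have ha : (0 : ℝ) ≤ (k * (16 * (m : ℝ) ^ 2) / δ + 1) / δ := by positivity
    have h4 : 4 / δ < (p : ℝ) := by linarith
    have h4' : (4 : ℝ) < δ * p := by
      rw [div_lt_iff₀ hδ] at h4; linarith
    have h5 : (k * (16 * (m : ℝ) ^ 2) / δ + 1) / δ < (p : ℝ) := by
      have : 0 < 4 / δ := by positivity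
      linarith
    have h5' : k * (16 * (m : ℝ) ^ 2) / δ + 1 < δ * p := by
      rw [div_lt_iff₀ hδ] at h5; linarith
    have hp0 : (0 : ℝ) < p := Nat.cast_pos.mpr (Nat.Prime.pos Fact.out)
    -- the bad vertices
    let Bd : Fin k → Finset (ZMod p) := fun l => (univ : Finset (ZMod p)).filter (fun x =>
      (((X l.succ).filter (fun y => Lb χ (x - y) (L 0 l.succ))).card : ℝ) <
        ((X l.succ).card : ℝ) / (2 * m))
    have hBd : ∀ l, ((Bd l).card : ℝ) ≤ 16 * (m : ℝ) ^ 2 / δ := by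
      intro l
      have hc : 4 ≤ (X l.succ).card := by
        have := hX l.succ
        have h6 : (4 : ℝ) ≤ ((X l.succ).card : ℝ) := by linarith
        exact_mod_cast h6
      have h7 := bad_count χ hχ (X l.succ) hc (L 0 l.succ)
      have h8 : ((Bd l).card : ℝ) * (δ * p) ≤ 16 * (m : ℝ) ^ 2 * p :=
        (mul_le_mul_of_nonneg_left (hX l.succ) (Nat.cast_nonneg _)).trans h7
      rw [le_div_iff₀ hδ]
      have h9 : ((Bd l).card : ℝ) * δ * p ≤ 16 * (m : ℝ) ^ 2 * p := by linarith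
      exact le_of_mul_le_mul_right h9 hp0
    have hU : (((univ : Finset (Fin k)).biUnion Bd).card : ℝ) < ((X 0).card : ℝ) := by
      have h10 : ((((univ : Finset (Fin k)).biUnion Bd).card : ℕ) : ℝ) ≤
          ∑ l : Fin k, ((Bd l).card : ℝ) := by
        exact_mod_cast Finset.card_biUnion_le
      have h11 : ∑ l : Fin k, ((Bd l).card : ℝ) ≤ k * (16 * (m : ℝ) ^ 2 / δ) := by
        refine (Finset.sum_le_sum (fun l _ => hBd l)).trans ?_
        rw [Finset.sum_const, Finset.card_univ, Fintype.card_fin, nsmul_eq_mul]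
      have h12 := hX 0
      have h13 : k * (16 * (m : ℝ) ^ 2 / δ) = k * (16 * (m : ℝ) ^ 2) / δ := by ring
      linarith
    have hex : ∃ x ∈ X 0, x ∉ (univ : Finset (Fin k)).biUnion Bd := by
      by_contra hcon
      push Not at hcon
      have := Finset.card_le_card (s := X 0) (t := (univ : Finset (Fin k)).biUnion Bd) hcon
      have h14 : ((X 0).card : ℝ) ≤ (((univ : Finset (Fin k)).biUnion Bd).card : ℝ) := by
        exact_mod_cast this
      linarith
    obtain ⟨x, hx0, hxB⟩ := hex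
    have hgood : ∀ l : Fin k, δ / (2 * m) * p ≤
        ((((X l.succ).filter (fun y => Lb χ (x - y) (L 0 l.succ)))).card : ℝ) := by
      intro l
      have h15 : x ∉ Bd l := fun h => hxB (Finset.mem_biUnion.mpr ⟨l, Finset.mem_univ _, h⟩)
      have h16 : ¬ ((((X l.succ).filter (fun y => Lb χ (x - y) (L 0 l.succ))).card : ℝ) <
        ((X l.succ).card : ℝ) / (2 * m)) := fun h =>
          h15 (Finset.mem_filter.mpr ⟨Finset.mem_univ _, h⟩)
      rw [not_lt] at h16
      refine le_trans ?_ h16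
      rw [div_mul_eq_mul_div]
      have := hX l.succ
      gcongr
    obtain ⟨b, hb1, hb2⟩ := hp₁ p ((le_max_left _ _).trans hp) χ hχ
      (fun l l' => L l.succ l'.succ)
      (fun l => (X l.succ).filter (fun y => Lb χ (x - y) (L 0 l.succ))) hgood
    refine ⟨Fin.cons x b, ?_, ?_⟩
    · intro l
      refine Fin.cases ?_ (fun l => ?_) l
      · simpa using hx0
      · rw [Fin.cons_succ]
        exact (Finset.mem_filter.mp (hb1 l)).1
    · intro l l'
      refine Fin.cases ?_ (fun l => ?_) l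
      · refine Fin.cases ?_ (fun l' => ?_) l'
        · intro h
          exact absurd h (lt_irrefl _)
        · intro _
          rw [Fin.cons_zero, Fin.cons_succ]
          exact (Finset.mem_filter.mp (hb1 l')).2
      · refine Fin.cases ?_ (fun l' => ?_) l'
        · intro h
          exact absurd h (Fin.not_lt_zero _)
        · intro h
          rw [Fin.cons_succ, Fin.cons_succ]
          exact hb2 l l' (Fin.succ_lt_succ_iff.mp h)

theorem pf_EMB : T_EMB := by
  intro k m hm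
  obtain ⟨p₀, hp₀⟩ := embed m hm k 1 one_pos
  refine ⟨p₀, fun p _ hp χ hχ L => ?_⟩
  obtain ⟨b, _, hb⟩ := hp₀ p hp χ hχ L (fun _ => univ) (fun l => by
    rw [Finset.card_univ, ZMod.card, one_mul])
  exact ⟨b, hb⟩

end Pool.Agent.H51.DM
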