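import Pool.Agent.H51.DM.Targets

set_option autoImplicit false
set_option linter.unusedSimpArgs false

open Finset

namespace Pool.Agent.H51.DM

theorem gad_one {α : Type*} [DecidableEq α] (x g : α) :
    (if x = g then 1 else 0 : ℤ) = (if g = x then 1 else 0) := by
  by_cases h : x = g
  · simp [h]
  · simp [h, Ne.symm h]

theorem neg_one_two : (0 : ZMod 2) - 1 = 1 := by decide

theorem pf_GAD : T_GAD := by
  intro p k e V U l l' hl g
  obtain ⟨⟨i, j⟩, hij⟩ := e
  have hij' : i < j := hij
  have hji : j ≠ i := hij'.ne'
  have hll : l' ≠ l := hl.ne'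
  have hll' : l ≠ l' := hl.ne
  simp only [Fin.sum_univ_four, gad_one]
  by_cases hl1 : l = i
  · subst hl1
    by_cases hl2 : l' = j
    · subst hl2
      simp only [nw, od, sw, tw, Prod.mk_sub_mk, sub_self, if_true, true_or, or_true, hji, hij'.ne,
        if_false, sub_zero, zero_sub, Equiv.swap_apply_left, Equiv.swap_apply_right,
        show (-1 : ZMod 2) = 1 by decide, Prod.mk_zero_zero]
      ring
    · have h3 : ¬ ((l, j) = (l, l')) := by
        intro h; exact hl2 (Prod.mk.inj h).2.symm
      have h4 : Equiv.swap l j l' = l' := Equiv.swap_apply_of_ne_of_ne hll hl2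
      simp only [nw, od, sw, tw, Prod.mk_sub_mk, sub_self, if_true, true_or, or_true, hji, hij'.ne,
        if_false, sub_zero, zero_sub, Equiv.swap_apply_left, Equiv.swap_apply_right, h3, h4, hll,
        hl2, or_false, false_or]
      ring
  · by_cases hl2 : l' = j
    · subst hl2
      have h3 : ¬ ((i, l') = (l, l')) := by
        intro h; exact hl1 (Prod.mk.inj h).1.symm
      have h4 : Equiv.swap i l' l = l := Equiv.swap_apply_of_ne_of_ne hl1 hll'
      simp only [nw, od, sw, tw, Prod.mk_sub_mk, sub_self, if_true, true_or, or_true, hji, hij'.ne,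
        if_false, sub_zero, zero_sub, Equiv.swap_apply_left, Equiv.swap_apply_right, h3, h4, hll,
        hl1, hll', or_false, false_or]
      ring
    · have h3 : ¬ ((i, j) = (l, l')) := by
        intro h; exact hl1 (Prod.mk.inj h).1.symm
      by_cases hl3 : l = j
      · subst hl3
        have h5 : l' ≠ i := by
          intro h; subst h; exact absurd hl (not_lt.mpr hij'.le)
        have h4 : Equiv.swap i l l' = l' := Equiv.swap_apply_of_ne_of_ne h5 hll
        simp only [nw, od, sw, tw, Prod.mk_sub_mk, sub_self, if_true, true_or, or_true, hji,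
          hij'.ne, if_false, sub_zero, zero_sub, Equiv.swap_apply_left, Equiv.swap_apply_right,
          h3, h4, hll, h5, or_false, false_or]
        ring
      · by_cases hl4 : l' = i
        · subst hl4
          have h4 : Equiv.swap l' j l = l := Equiv.swap_apply_of_ne_of_ne hll' hl3
          simp only [nw, od, sw, tw, Prod.mk_sub_mk, sub_self, if_true, true_or, or_true, hji,
            hij'.ne, if_false, sub_zero, zero_sub, Equiv.swap_apply_left,
            Equiv.swap_apply_right, h3, h4, hll, hll', hl3, hl1, or_false, false_or]
          ring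
        · have h4 : Equiv.swap i j l = l := Equiv.swap_apply_of_ne_of_ne hl1 hl3
          have h6 : Equiv.swap i j l' = l' := Equiv.swap_apply_of_ne_of_ne hl4 hl2
          simp only [nw, od, sw, tw, Prod.mk_sub_mk, sub_self, hl1, hl2, hl3, hl4, h4, h6,
            or_false, if_false, h3]
          ring

end Pool.Agent.H51.DM
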