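import Pool.Agent.H51.DM.Targets

set_option autoImplicit false

open Finset

namespace Pool.Agent.H51.DM

open Classical in
/-- completing a partial labelling to a uniform one -/
theorem fill {n m : ℕ} [NeZero m] (A T : Finset (Fin n)) (hTA : T ⊆ A) (hA : A.card = 2 * m)
    (g : Fin n → ZMod m) (hg : ∀ c, (T.filter (fun s => g s = c)).card ≤ 2) :
    ∃ Φ : Fin n → ZMod m, (∀ s ∈ T, Φ s = g s) ∧
      ∀ c, (A.filter (fun s => Φ s = c)).card = 2 := by
  -- the rank of an element among the elements of its label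
  let rk : Fin n → ℕ := fun s => (T.filter (fun s' => g s' = g s ∧ s' < s)).card
  have hrk : ∀ s ∈ T, rk s < 2 := by
    intro s hs
    have h1 : T.filter (fun s' => g s' = g s ∧ s' < s) ⊆ (T.filter (fun s' => g s' = g s)).erase s := by
      intro x hx
      simp only [Finset.mem_filter, Finset.mem_erase] at hx ⊢
      exact ⟨hx.2.2.ne, hx.1, hx.2.1⟩
    have h2 := Finset.card_le_card h1
    have h3 : s ∈ T.filter (fun s' => g s' = g s) := Finset.mem_filter.mpr ⟨hs, rfl⟩
    rw [Finset.card_erase_of_mem h3] at h2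
    have h4 := hg (g s)
    have h5 : 0 < (T.filter (fun s' => g s' = g s)).card := Finset.card_pos.mpr ⟨s, h3⟩
    simp only [rk]
    omega
  have hmono : ∀ s ∈ T, ∀ s' ∈ T, g s = g s' → s < s' → rk s < rk s' := by
    intro s hs s' hs' hgs hlt
    refine Finset.card_lt_card ?_
    rw [Finset.ssubset_iff_of_subset]
    · refine ⟨s, Finset.mem_filter.mpr ⟨hs, hgs, hlt⟩, ?_⟩
      intro h
      exact absurd (Finset.mem_filter.mp h).2.2 (lt_irrefl _)
    · intro x hx
      simp only [Finset.mem_filter] at hx ⊢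
      exact ⟨hx.1, hx.2.1.trans hgs, hx.2.2.trans hlt⟩
  let ψ : {s // s ∈ A} → ZMod m × Fin 2 := fun s =>
    (g s.1, if h : rk s.1 < 2 then ⟨rk s.1, h⟩ else 0)
  have hcard : Fintype.card {s // s ∈ A} = (univ : Finset (ZMod m × Fin 2)).card := by
    rw [Fintype.card_coe, hA, Finset.card_univ, Fintype.card_prod, ZMod.card, Fintype.card_fin]
    ring
  obtain ⟨G, hG⟩ := Finset.exists_equiv_extend_of_card_eq hcard
    (s := univ.filter (fun s : {s // s ∈ A} => s.1 ∈ T)) (f := ψ) (Finset.subset_univ _) (by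
      intro s hs s' hs' heq
      simp only [Finset.coe_filter, Finset.mem_univ, true_and, Set.mem_ofPred_eq] at hs hs'
      have h1 : g s.1 = g s'.1 := (Prod.mk.inj heq).1
      have h2 := (Prod.mk.inj heq).2
      rw [dif_pos (hrk _ hs), dif_pos (hrk _ hs')] at h2
      have h3 : rk s.1 = rk s'.1 := congrArg Fin.val h2
      rcases lt_trichotomy s.1 s'.1 with h | h | h
      · exact absurd h3 (hmono _ hs _ hs' h1 h).ne
      · exact Subtype.ext h
      · exact absurd h3.symm (hmono _ hs' _ hs h1.symm h).ne)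
  refine ⟨fun s => if h : s ∈ A then (G ⟨s, h⟩ : ZMod m × Fin 2).1 else 0, ?_, ?_⟩
  · intro s hs
    simp only
    rw [dif_pos (hTA hs), hG ⟨s, hTA hs⟩ (Finset.mem_filter.mpr ⟨Finset.mem_univ _, hs⟩)]
  · intro c
    have h1 : (A.filter (fun s => (if h : s ∈ A then (G ⟨s, h⟩ : ZMod m × Fin 2).1 else 0) = c)).card
        = (univ : Finset (Fin 2)).card := by
      symm
      refine Finset.card_bij (fun t _ => (G.symm ⟨(c, t), Finset.mem_univ _⟩).1) ?_ ?_ ?_
      · intro t _
        have h2 := (G.symm ⟨(c, t), Finset.mem_univ _⟩).2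
        refine Finset.mem_filter.mpr ⟨h2, ?_⟩
        rw [dif_pos h2]
        simp
      · intro t _ t' _ h
        have h3 := G.symm.injective (Subtype.ext h)
        have h4 : (c, t) = (c, t') := congrArg Subtype.val h3
        exact (Prod.mk.inj h4).2
      · intro s hs
        have h2 := (Finset.mem_filter.mp hs).1
        have h3 := (Finset.mem_filter.mp hs).2
        rw [dif_pos h2] at h3
        refine ⟨(G ⟨s, h2⟩ : ZMod m × Fin 2).2, Finset.mem_univ _, ?_⟩
        have h4 : (⟨(c, (G ⟨s, h2⟩ : ZMod m × Fin 2).2), Finset.mem_univ _⟩ :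
            {x // x ∈ (univ : Finset (ZMod m × Fin 2))}) = G ⟨s, h2⟩ := by
          apply Subtype.ext
          rw [← h3]
        rw [h4, Equiv.symm_apply_apply]
    rw [h1]
    simp

open Classical in
theorem pf_LAB : T_LAB := by
  intro k m ν a f hkm hν hB hP
  have : NeZero m := ⟨by omega⟩
  have F1 : ∀ r : Fin 4, r < 2 → r = 0 ∨ r = 1 := by decide
  have F2 : ∀ r : Fin 4, ¬ r < 2 → r = 2 ∨ r = 3 := by decide
  let idx := Fintype.equivFin (Pr k)
  set P := Fintype.card (Pr k) with hPdef
  have hPk : P ≤ k ^ 2 := by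
    rw [hPdef]
    refine (Fintype.card_subtype_le _).trans ?_
    rw [Fintype.card_prod, Fintype.card_fin, sq]
  let o : Fin k → Fin k → ZMod m := fun l l' => if l < l' then 0 else ν
  have ho : ∀ l l', l ≠ l' → o l' l = o l l' + ν := by
    intro l l' h
    simp only [o]
    rcases lt_or_gt_of_ne h with h1 | h1
    · rw [if_pos h1, if_neg (not_lt.mpr h1.le), zero_add]
    · rw [if_pos h1, if_neg (not_lt.mpr h1.le), hν]
  have ho2 : ∀ l l', o l l' + o l l' = 0 := by
    intro l l'
    simp only [o]
    split_ifs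
    · simp
    · exact hν
  -- the number of a planted label
  let nb : Pr k × Fin 4 → ℕ := fun z => (if z.2 < 2 then 0 else P) + idx z.1
  let oo : Pr k × Fin 4 → Fin k → Fin k → ZMod m := fun z l l' =>
    if z.2 = 0 ∨ z.2 = 2 then o l l' else o (sw z.1 l) (sw z.1 l')
  let pL : Pr k × Fin 4 → Fin k → Fin k → ZMod m := fun z l l' => (nb z : ZMod m) + oo z l l'
  have hpanti : ∀ z l l', l ≠ l' → pL z l' l = pL z l l' + ν := by
    intro z l l' h
    have h1 : oo z l' l = oo z l l' + ν := by
      simp only [oo]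
      split_ifs
      · exact ho l l' h
      · exact ho _ _ (fun h2 => h ((sw z.1).injective h2))
    simp only [pL]
    rw [h1, add_assoc]
  have hoo2 : ∀ z l l', oo z l l' + oo z l l' = 0 := by
    intro z l l'
    simp only [oo]
    split_ifs
    · exact ho2 _ _
    · exact ho2 _ _
  have hnb : ∀ z, nb z < 2 * P := by
    intro z
    have h1 : (idx z.1 : ℕ) < P := (idx z.1).2
    simp only [nb]
    split_ifs <;> omega
  have hinj : ∀ z z' l l', pL z l l' = pL z' l l' → nb z = nb z' := by
    intro z z' l l' h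
    have h1 : (nb z : ZMod m) + oo z l l' + ((nb z : ZMod m) + oo z l l') =
        (nb z' : ZMod m) + oo z' l l' + ((nb z' : ZMod m) + oo z' l l') := by
      simp only [pL] at h
      rw [h]
    have h2 : ((2 * nb z : ℕ) : ZMod m) = ((2 * nb z' : ℕ) : ZMod m) := by
      have e1 := hoo2 z l l'
      have e2 := hoo2 z' l l'
      push_cast
      linear_combination h1 - e1 + e2
    have h3 := (ZMod.natCast_eq_natCast_iff' _ _ _).mp h2
    have b1 := hnb z
    have b2 := hnb z'
    rw [Nat.mod_eq_of_lt (by omega), Nat.mod_eq_of_lt (by omega)] at h3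
    omega
  have hnb2 : ∀ z z', nb z = nb z' → z.1 = z'.1 ∧ (z.2 < 2 ↔ z'.2 < 2) := by
    intro z z' h
    have h1 : (idx z.1 : ℕ) < P := (idx z.1).2
    have h2 : (idx z'.1 : ℕ) < P := (idx z'.1).2
    simp only [nb] at h
    have h3 : (idx z.1 : ℕ) = idx z'.1 ∧ (z.2 < 2 ↔ z'.2 < 2) := by
      by_cases c1 : z.2 < 2
      · by_cases c2 : z'.2 < 2
        · simp only [c1, c2, if_true] at h
          exact ⟨by omega, by simp [c1, c2]⟩
        · simp only [c1, c2, if_true, if_false] at h
          omega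
      · by_cases c2 : z'.2 < 2
        · simp only [c1, c2, if_true, if_false] at h
          omega
        · simp only [c1, c2, if_false] at h
          exact ⟨by omega, by simp [c1, c2]⟩
    exact ⟨idx.injective (Fin.ext h3.1), h3.2⟩
  -- the planted indices
  let g : Fin k → Fin k → Fin (4 * m) → ZMod m := fun l l' s =>
    if h : ∃ z, f z = s then pL h.choose l l' else 0
  have hgf : ∀ l l' z, g l l' (f z) = pL z l l' := by
    intro l l' z
    have h : ∃ y, f y = f z := ⟨z, rfl⟩
    have h2 : h.choose = z := hP.1 h.choose_spec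
    simp only [g]
    rw [dif_pos h, h2]
  have hfill : ∀ (l l' : Fin k), l ≠ l' → ∀ ε : ZMod 2, ∃ Φ : Fin (4 * m) → ZMod m,
      (∀ z, a (f z) l - a (f z) l' = ε → Φ (f z) = pL z l l') ∧
      ∀ c, (univ.filter (fun s => a s l - a s l' = ε ∧ Φ s = c)).card = 2 := by
    intro l l' hl ε
    obtain ⟨Φ, h1, h2⟩ := fill (univ.filter (fun s => a s l - a s l' = ε))
      (univ.filter (fun s => (∃ z, f z = s) ∧ a s l - a s l' = ε))
      (by
        intro s hs
        exact Finset.mem_filter.mpr ⟨Finset.mem_univ _, (Finset.mem_filter.mp hs).2.2⟩)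
      (hB l l' hl ε) (g l l') (by
        intro c
        -- the labels
        by_cases hne : ∃ z0, pL z0 l l' = c
        · obtain ⟨z0, hz0⟩ := hne
          have hsub : (univ.filter (fun s => (∃ z, f z = s) ∧ a s l - a s l' = ε)).filter
              (fun s => g l l' s = c) ⊆
              (if z0.2 < 2 then {f (z0.1, 0), f (z0.1, 1)} else {f (z0.1, 2), f (z0.1, 3)}) := by
            intro s hs
            simp only [Finset.mem_filter, Finset.mem_univ, true_and] at hs
            obtain ⟨⟨⟨z, rfl⟩, -⟩, hs2⟩ := hs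
            rw [hgf] at hs2
            obtain ⟨h3, h4⟩ := hnb2 z z0 (hinj z z0 l l' (hs2.trans hz0.symm))
            obtain ⟨e, r⟩ := z
            obtain ⟨e0, r0⟩ := z0
            simp only at h3 h4 ⊢
            subst h3
            by_cases hr : r0 < 2
            · rw [if_pos hr]
              have hr' := h4.mpr hr
              rcases F1 r hr' with rfl | rfl <;> simp
            · rw [if_neg hr]
              have hr' : ¬ r < 2 := fun h => hr (h4.mp h)
              rcases F2 r hr' with rfl | rfl <;> simp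
          refine (Finset.card_le_card hsub).trans ?_
          split_ifs
          · exact Finset.card_le_two
          · exact Finset.card_le_two
        · rw [Finset.filter_eq_empty_iff.mpr]
          · simp
          · intro s hs h3
            obtain ⟨⟨z, rfl⟩, -⟩ := (Finset.mem_filter.mp hs).2
            rw [hgf] at h3
            exact hne ⟨z, h3⟩)
    refine ⟨Φ, ?_, ?_⟩
    · intro z hz
      rw [h1 (f z) (Finset.mem_filter.mpr ⟨Finset.mem_univ _, ⟨z, rfl⟩, hz⟩), hgf]
    · intro c
      refine Eq.trans ?_ (h2 c)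
      rw [Finset.filter_filter]
  -- choose
  have hfill2 : ∀ (l l' : Fin k), ∃ Ψ : Fin (4 * m) → ZMod m, l ≠ l' →
      (∀ z, Ψ (f z) = pL z l l') ∧
      ∀ (ε : ZMod 2) c, (univ.filter (fun s => a s l - a s l' = ε ∧ Ψ s = c)).card = 2 := by
    intro l l'
    by_cases hl : l = l'
    · exact ⟨0, fun h => absurd hl h⟩
    · choose Φ hΦ1 hΦ2 using hfill l l' hl
      refine ⟨fun s => Φ (a s l - a s l') s, fun _ => ⟨fun z => hΦ1 _ z rfl, ?_⟩⟩
      intro ε c
      refine Eq.trans ?_ (hΦ2 ε c)
      congr 1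
      ext s
      simp only [Finset.mem_filter, Finset.mem_univ, true_and]
      constructor
      · rintro ⟨h1, h2⟩
        rw [h1] at h2
        exact ⟨h1, h2⟩
      · rintro ⟨h1, h2⟩
        rw [h1]
        exact ⟨rfl, h2⟩
  choose Ψ hΨ using hfill2
  let L : Fin (4 * m) → Fin k → Fin k → ZMod m := fun s l l' =>
    if l < l' then Ψ l l' s else Ψ l' l s + ν
  have hLf : ∀ z l l', l ≠ l' → L (f z) l l' = pL z l l' := by
    intro z l l' hl
    simp only [L]
    rcases lt_or_gt_of_ne hl with h | h
    · rw [if_pos h, (hΨ l l' hl).1]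
    · rw [if_neg (not_lt.mpr h.le), (hΨ l' l hl.symm).1, hpanti z l' l hl.symm]
  have hLanti : ∀ s l l', l ≠ l' → L s l' l = L s l l' + ν := by
    intro s l l' hl
    simp only [L]
    rcases lt_or_gt_of_ne hl with h | h
    · rw [if_pos h, if_neg (not_lt.mpr h.le)]
    · rw [if_pos h, if_neg (not_lt.mpr h.le), add_assoc, hν, add_zero]
  refine ⟨L, fun e => L (f (e, 0)) e.1.1 e.1.2, fun e => L (f (e, 2)) e.1.1 e.1.2, ?_, hLanti,
    fun e => ⟨rfl, rfl⟩, ?_⟩
  · intro l l' hl ε c
    simp only [L]
    rcases lt_or_gt_of_ne hl with h | h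
    · simp only [if_pos h]
      exact (hΨ l l' hl).2 ε c
    · simp only [if_neg (not_lt.mpr h.le)]
      refine Eq.trans ?_ ((hΨ l' l hl.symm).2 ε (c - ν))
      congr 1
      ext s
      simp only [Finset.mem_filter, Finset.mem_univ, true_and]
      have h2 : ∀ x y ε : ZMod 2, x - y = ε ↔ y - x = ε := by decide
      rw [h2 (a s l) (a s l') ε, eq_sub_iff_add_eq]
  · intro e l l' hl
    have hsl : sw e l ≠ sw e l' := fun h => hl ((sw e).injective h)
    rw [hLf _ _ _ hl, hLf _ _ _ hsl, hLf _ _ _ hl, hLf _ _ _ hsl]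
    constructor
    · simp [pL, nb, oo]
    · simp [pL, nb, oo]

end Pool.Agent.H51.DM
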