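import Pool.Agent.H51.DM.ASM

set_option autoImplicit false

open Finset

namespace Pool.Agent.H51.DM

section

variable {p m : ℕ} [Fact p.Prime] [NeZero m] (χ : (ZMod p)ˣ →* Multiplicative (ZMod m))

open Classical in
/-- the label of an element -/
noncomputable def la (z : ZMod p) : ZMod m :=
  if h : z ≠ 0 then Multiplicative.toAdd (χ (Units.mk0 z h)) else 0

omit [NeZero m] in
theorem lb_iff (z : ZMod p) (c : ZMod m) : Lb χ z c ↔ z ≠ 0 ∧ la χ z = c := by
  constructor
  · rintro ⟨u, hu, hc⟩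
    have h : z ≠ 0 := hu ▸ Units.ne_zero u
    refine ⟨h, ?_⟩
    have h1 : Units.mk0 z h = u := Units.ext hu.symm
    rw [la, dif_pos h, h1, hc]
    rfl
  · rintro ⟨h, hc⟩
    refine ⟨Units.mk0 z h, rfl, ?_⟩
    rw [la, dif_pos h] at hc
    rw [← hc]
    rfl

open Classical in
/-- the points whose differences with `y` and `y'` have the same label -/
theorem pair_count (hχ : Function.Surjective χ) (y y' : ZMod p) :
    ((univ.filter (fun x : ZMod p => x - y ≠ 0 ∧ x - y' ≠ 0 ∧ la χ (x - y) = la χ (x - y'))).card : ℝ)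
      = if y = y' then (p : ℝ) - 1 else ((p : ℝ) - 1) / m - 1 := by
  by_cases h : y = y'
  · subst h
    have h1 : (univ.filter (fun x : ZMod p => x - y ≠ 0 ∧ x - y ≠ 0 ∧
        la χ (x - y) = la χ (x - y))) = univ.erase y := by
      ext x
      simp only [Finset.mem_filter, Finset.mem_univ, true_and, and_true, and_self,
        Finset.mem_erase, ne_eq, sub_eq_zero]
    rw [h1, Finset.card_erase_of_mem (Finset.mem_univ _), Finset.card_univ, ZMod.card, if_pos rfl,
      Nat.cast_sub (Nat.Prime.one_lt Fact.out).le, Nat.cast_one]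
  · rw [if_neg h]
    have h1 : (univ.filter (fun x : ZMod p => x - y ≠ 0 ∧ x - y' ≠ 0 ∧
        la χ (x - y) = la χ (x - y'))).card =
        ((univ : Finset χ.ker).erase 1).card := by
      symm
      refine Finset.card_bij (fun κ _ => (y - ((κ : (ZMod p)ˣ) : ZMod p) * y') *
        (1 - ((κ : (ZMod p)ˣ) : ZMod p))⁻¹) ?_ ?_ ?_
      · intro κ hκ
        have hκ1 : κ ≠ 1 := Finset.ne_of_mem_erase hκ
        have hk : (1 : ZMod p) - ((κ : (ZMod p)ˣ) : ZMod p) ≠ 0 := by
          intro h0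
          apply hκ1
          apply Subtype.ext
          apply Units.ext
          rw [sub_eq_zero] at h0
          exact h0.symm
        have e1 : (y - ((κ : (ZMod p)ˣ) : ZMod p) * y') * (1 - ((κ : (ZMod p)ˣ) : ZMod p))⁻¹ - y' =
            (y - y') * (1 - ((κ : (ZMod p)ˣ) : ZMod p))⁻¹ := by
          field_simp
          ring
        have e2 : (y - ((κ : (ZMod p)ˣ) : ZMod p) * y') * (1 - ((κ : (ZMod p)ˣ) : ZMod p))⁻¹ - y =
            ((κ : (ZMod p)ˣ) : ZMod p) * ((y - y') * (1 - ((κ : (ZMod p)ˣ) : ZMod p))⁻¹) := by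
          field_simp
          ring
        have h2 : (y - y') * (1 - ((κ : (ZMod p)ˣ) : ZMod p))⁻¹ ≠ 0 :=
          mul_ne_zero (sub_ne_zero.mpr h) (inv_ne_zero hk)
        have h3 : ((κ : (ZMod p)ˣ) : ZMod p) * ((y - y') * (1 - ((κ : (ZMod p)ˣ) : ZMod p))⁻¹) ≠ 0 :=
          mul_ne_zero (Units.ne_zero _) h2
        simp only [Finset.mem_filter, Finset.mem_univ, true_and]
        rw [e1, e2]
        refine ⟨h3, h2, ?_⟩
        have h4 : Lb χ ((y - y') * (1 - ((κ : (ZMod p)ˣ) : ZMod p))⁻¹)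
            (la χ ((y - y') * (1 - ((κ : (ZMod p)ˣ) : ZMod p))⁻¹)) := (lb_iff χ _ _).mpr ⟨h2, rfl⟩
        obtain ⟨u, hu, hc⟩ := h4
        refine ((lb_iff χ _ _).mp ⟨(κ : (ZMod p)ˣ) * u, ?_, ?_⟩).2
        · rw [Units.val_mul, hu]
        · rw [map_mul, (MonoidHom.mem_ker).mp κ.2, one_mul, hc]
      · intro κ hκ κ' hκ' heq
        have hk : ∀ κ : χ.ker, κ ≠ 1 → (1 : ZMod p) - ((κ : (ZMod p)ˣ) : ZMod p) ≠ 0 := by
          intro κ hκ1 h0
          apply hκ1
          apply Subtype.ext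
          apply Units.ext
          rw [sub_eq_zero] at h0
          exact h0.symm
        have k1 := hk κ (Finset.ne_of_mem_erase hκ)
        have k2 := hk κ' (Finset.ne_of_mem_erase hκ')
        rw [← div_eq_mul_inv, ← div_eq_mul_inv, div_eq_div_iff k1 k2] at heq
        have h5 : (y - y') * (((κ : (ZMod p)ˣ) : ZMod p) - ((κ' : (ZMod p)ˣ) : ZMod p)) = 0 := by
          linear_combination heq
        rcases mul_eq_zero.mp h5 with h6 | h6
        · exact absurd (sub_eq_zero.mp h6) h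
        · apply Subtype.ext
          apply Units.ext
          exact sub_eq_zero.mp h6
      · intro x hx
        simp only [Finset.mem_filter, Finset.mem_univ, true_and] at hx
        obtain ⟨h2, h3, h4⟩ := hx
        obtain ⟨u, hu, hc⟩ := (lb_iff χ (x - y) _).mpr ⟨h2, rfl⟩
        obtain ⟨v, hv, hd⟩ := (lb_iff χ (x - y') _).mpr ⟨h3, rfl⟩
        have hk : u * v⁻¹ ∈ χ.ker := by
          rw [MonoidHom.mem_ker, map_mul, map_inv, hc, hd, h4, mul_inv_cancel]
        have hval : ((u * v⁻¹ : (ZMod p)ˣ) : ZMod p) = (x - y) / (x - y') := by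
          rw [Units.val_mul, hu, Units.val_inv_eq_inv_val, hv, div_eq_mul_inv]
        have hne : (1 : ZMod p) - (x - y) / (x - y') ≠ 0 := by
          rw [one_sub_div h3]
          refine div_ne_zero ?_ h3
          intro h0
          apply h
          linear_combination h0
        refine ⟨⟨u * v⁻¹, hk⟩, ?_, ?_⟩
        · refine Finset.mem_erase.mpr ⟨?_, Finset.mem_univ _⟩
          intro h0
          apply hne
          have h6 : u * v⁻¹ = 1 := congrArg Subtype.val h0
          rw [← hval, h6, Units.val_one, sub_self]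
        · simp only
          rw [hval, ← div_eq_mul_inv, div_eq_iff hne]
          field_simp
          ring
    rw [h1, Finset.card_erase_of_mem (Finset.mem_univ _), Finset.card_univ]
    have h2 := card_ker χ hχ
    rw [Nat.card_eq_fintype_card] at h2
    have h3 : 1 < p := Nat.Prime.one_lt Fact.out
    have h4 : 1 ≤ Fintype.card χ.ker := Fintype.card_pos
    have h5 : ((Fintype.card χ.ker : ℕ) : ℝ) * m = (p : ℝ) - 1 := by
      have := congrArg (Nat.cast (R := ℝ)) h2
      rw [Nat.cast_mul, Nat.cast_sub h3.le, Nat.cast_one] at this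
      exact this
    have hm : (m : ℝ) ≠ 0 := Nat.cast_ne_zero.mpr (NeZero.ne m)
    rw [Nat.cast_sub h4, Nat.cast_one, ← h5, mul_div_assoc, div_self hm, mul_one]

end

open Classical in
theorem pf_MOM : T_MOM := by
  intro p m _ _ χ hχ Y
  have hm : (0 : ℝ) < m := Nat.cast_pos.mpr (NeZero.pos m)
  have hp : 1 < p := Nat.Prime.one_lt Fact.out
  -- the count as a sum
  have hn : ∀ (x : ZMod p) (c : ZMod m), ((Y.filter (fun y => Lb χ (x - y) c)).card : ℝ) =
      ∑ y ∈ Y, if x - y ≠ 0 ∧ la χ (x - y) = c then (1 : ℝ) else 0 := by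
    intro x c
    rw [Finset.sum_boole]
    congr 2
    ext y
    simp only [Finset.mem_filter, lb_iff]
  have hN : ∀ x : ZMod p, ((Y.erase x).card : ℝ) = ∑ y ∈ Y, if x - y ≠ 0 then (1 : ℝ) else 0 := by
    intro x
    rw [Finset.sum_boole]
    congr 2
    ext y
    simp only [Finset.mem_filter, Finset.mem_erase, ne_eq, sub_eq_zero]
    tauto
  have hsum : ∀ x : ZMod p, ∑ c : ZMod m, ((Y.filter (fun y => Lb χ (x - y) c)).card : ℝ) =
      ((Y.erase x).card : ℝ) := by
    intro x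
    rw [hN, Finset.sum_congr rfl (fun c _ => hn x c), Finset.sum_comm]
    refine Finset.sum_congr rfl (fun y _ => ?_)
    by_cases h : x - y ≠ 0
    · simp [h]
    · simp [h]
  have hsq : ∀ x : ZMod p, ∑ c : ZMod m, (((Y.filter (fun y => Lb χ (x - y) c)).card : ℝ)) ^ 2 =
      ∑ y ∈ Y, ∑ y' ∈ Y, if x - y ≠ 0 ∧ x - y' ≠ 0 ∧ la χ (x - y) = la χ (x - y') then (1 : ℝ)
        else 0 := by
    intro x
    have h1 : ∀ c : ZMod m, (((Y.filter (fun y => Lb χ (x - y) c)).card : ℝ)) ^ 2 =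
        ∑ y ∈ Y, ∑ y' ∈ Y, (if x - y ≠ 0 ∧ la χ (x - y) = c then (1 : ℝ) else 0) *
          (if x - y' ≠ 0 ∧ la χ (x - y') = c then (1 : ℝ) else 0) := by
      intro c
      rw [hn, sq, Finset.sum_mul_sum]
    rw [Finset.sum_congr rfl (fun c _ => h1 c), Finset.sum_comm]
    refine Finset.sum_congr rfl (fun y _ => ?_)
    rw [Finset.sum_comm]
    refine Finset.sum_congr rfl (fun y' _ => ?_)
    by_cases h : x - y ≠ 0
    · by_cases h' : x - y' ≠ 0
      · simp only [h, h', true_and, ne_eq, not_false_eq_true, mul_ite, mul_one, mul_zero]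
        rw [Finset.sum_eq_single (la χ (x - y'))]
        · simp only [if_true]
        · intro c _ hc
          rw [if_neg (Ne.symm hc)]
        · intro h0
          exact absurd (Finset.mem_univ _) h0
      · simp [h']
    · simp [h]
  have hvar : ∀ x : ZMod p, ∑ c : ZMod m, (((Y.filter (fun y => Lb χ (x - y) c)).card : ℝ) -
      ((Y.erase x).card : ℝ) / m) ^ 2 =
      (∑ c : ZMod m, (((Y.filter (fun y => Lb χ (x - y) c)).card : ℝ)) ^ 2) -
        ((Y.erase x).card : ℝ) ^ 2 / m := by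
    intro x
    have h1 : ∀ c : ZMod m, (((Y.filter (fun y => Lb χ (x - y) c)).card : ℝ) -
        ((Y.erase x).card : ℝ) / m) ^ 2 =
        (((Y.filter (fun y => Lb χ (x - y) c)).card : ℝ)) ^ 2 -
        (2 * ((Y.erase x).card : ℝ) / m) * ((Y.filter (fun y => Lb χ (x - y) c)).card : ℝ) +
        (((Y.erase x).card : ℝ) / m) ^ 2 := by
      intro c; ring
    rw [Finset.sum_congr rfl (fun c _ => h1 c), Finset.sum_add_distrib, Finset.sum_sub_distrib,
      ← Finset.mul_sum, hsum, Finset.sum_const, Finset.card_univ, ZMod.card, nsmul_eq_mul]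
    field_simp
    ring
  have hNe : ∀ x : ZMod p, ((Y.erase x).card : ℝ) = (Y.card : ℝ) - if x ∈ Y then 1 else 0 := by
    intro x
    by_cases h : x ∈ Y
    · rw [Finset.card_erase_of_mem h, if_pos h, Nat.cast_sub (Finset.card_pos.mpr ⟨x, h⟩),
        Nat.cast_one]
    · rw [Finset.erase_eq_of_notMem h, if_neg h, sub_zero]
  have hS2 : ∑ x : ZMod p, ((Y.erase x).card : ℝ) ^ 2 =
      (p : ℝ) * (Y.card : ℝ) ^ 2 - 2 * (Y.card : ℝ) ^ 2 + Y.card := by
    have h1 : ∀ x : ZMod p, ((Y.erase x).card : ℝ) ^ 2 = (Y.card : ℝ) ^ 2 -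
        (2 * (Y.card : ℝ) - 1) * (if x ∈ Y then 1 else 0) := by
      intro x
      rw [hNe]
      split_ifs <;> ring
    rw [Finset.sum_congr rfl (fun x _ => h1 x), Finset.sum_sub_distrib, ← Finset.mul_sum,
      Finset.sum_const, Finset.card_univ, ZMod.card, nsmul_eq_mul, Finset.sum_boole]
    have h2 : (univ.filter (fun x => x ∈ Y)) = Y := by ext x; simp
    rw [h2]
    ring
  have hS1 : ∑ x : ZMod p, ∑ c : ZMod m, (((Y.filter (fun y => Lb χ (x - y) c)).card : ℝ)) ^ 2 =
      (Y.card : ℝ) * ((p : ℝ) - 1) + ((Y.card : ℝ) ^ 2 - Y.card) * (((p : ℝ) - 1) / m - 1) := by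
    rw [Finset.sum_congr rfl (fun x _ => hsq x), Finset.sum_comm]
    have h1 : ∀ y ∈ Y, ∑ x : ZMod p, ∑ y' ∈ Y,
        (if x - y ≠ 0 ∧ x - y' ≠ 0 ∧ la χ (x - y) = la χ (x - y') then (1 : ℝ) else 0) =
        ((p : ℝ) - 1) + ((Y.card : ℝ) - 1) * (((p : ℝ) - 1) / m - 1) := by
      intro y hy
      rw [Finset.sum_comm]
      have h2 : ∀ y' ∈ Y, ∑ x : ZMod p,
          (if x - y ≠ 0 ∧ x - y' ≠ 0 ∧ la χ (x - y) = la χ (x - y') then (1 : ℝ) else 0) =
          (((p : ℝ) - 1) / m - 1) + (if y = y' then ((p : ℝ) - 1) - (((p : ℝ) - 1) / m - 1)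
            else 0) := by
        intro y' _
        rw [Finset.sum_boole, pair_count χ hχ y y']
        split_ifs <;> ring
      rw [Finset.sum_congr rfl h2, Finset.sum_add_distrib, Finset.sum_const, nsmul_eq_mul,
        Finset.sum_ite_eq, if_pos hy]
      ring
    rw [Finset.sum_congr rfl h1, Finset.sum_const, nsmul_eq_mul]
    ring
  rw [Finset.sum_congr rfl (fun x _ => hvar x), Finset.sum_sub_distrib, ← Finset.sum_div, hS1, hS2]
  have hY0 : (0 : ℝ) ≤ (Y.card : ℝ) := Nat.cast_nonneg _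
  have hY1 : (Y.card : ℝ) ≤ (Y.card : ℝ) ^ 2 := by
    have : Y.card ≤ Y.card ^ 2 := by nlinarith [Nat.zero_le Y.card]
    exact_mod_cast this
  have hm1 : (1 : ℝ) ≤ m := by exact_mod_cast NeZero.pos m
  have hp1 : (1 : ℝ) ≤ p := by exact_mod_cast hp.le
  have hmi : 1 / (m : ℝ) ≤ 1 := by
    rw [div_le_one hm]; exact hm1
  have e1 : (Y.card : ℝ) * ((p : ℝ) - 1) + ((Y.card : ℝ) ^ 2 - Y.card) * (((p : ℝ) - 1) / m - 1) -
      ((p : ℝ) * (Y.card : ℝ) ^ 2 - 2 * (Y.card : ℝ) ^ 2 + Y.card) / m =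
      (p : ℝ) * Y.card - ((Y.card : ℝ) ^ 2) * (1 - 1 / m) - (Y.card : ℝ) * (p : ℝ) * (1 / m) := by
    field_simp
    ring
  rw [e1]
  have h1 : 0 ≤ ((Y.card : ℝ) ^ 2) * (1 - 1 / m) :=
    mul_nonneg (sq_nonneg _) (by linarith)
  have h2 : 0 ≤ (Y.card : ℝ) * (p : ℝ) * (1 / m) := by positivity
  linarith

end Pool.Agent.H51.DM
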