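import Pool.Agent.H51.DM.Targets

set_option autoImplicit false
set_option linter.unusedSimpArgs false

open Finset

namespace Pool.Agent.H51.DM

/-- the sign of an element of `ZMod 2` -/
def sg (z : ZMod 2) : ℤ := if z = 0 then 1 else -1

theorem sg_sub (x y : ZMod 2) : sg (x - y) = sg x * sg y := by
  revert x y; decide

theorem sg_add_one (x : ZMod 2) : sg (x + 1) = - sg x := by
  revert x; decide

theorem sg_ind (z : ZMod 2) (ε : ZMod 2) : 2 * (if z = ε then 1 else 0 : ℤ) = 1 + sg ε * sg z := by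
  revert z ε; decide

/-- balance from the sums of the signs -/
theorem bal_of {k m : ℕ} (a : Fin (4 * m) → Fin k → ZMod 2)
    (h : ∀ l l' : Fin k, l ≠ l' → ∑ s, sg (a s l) * sg (a s l') = 0) : Bal a := by
  intro l l' hl ε
  have h1 : 2 * (((univ.filter (fun s => a s l - a s l' = ε)).card : ℕ) : ℤ) = 4 * m := by
    rw [← Finset.sum_boole, Finset.mul_sum]
    have h2 : ∀ s ∈ (univ : Finset (Fin (4 * m))), 2 * (if a s l - a s l' = ε then 1 else 0 : ℤ) =
        1 + sg ε * (sg (a s l) * sg (a s l')) := by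
      intro s _
      rw [sg_ind, sg_sub]
    rw [Finset.sum_congr rfl h2, Finset.sum_add_distrib, ← Finset.mul_sum, h l l' hl]
    simp
  have h3 : 2 * (univ.filter (fun s => a s l - a s l' = ε)).card = 4 * m := by
    exact_mod_cast h1
  omega

theorem sum_pr {k : ℕ} (F : Fin k → ℤ) :
    2 * ∑ e : Pr k, F e.1.1 * F e.1.2 + ∑ i, F i ^ 2 = (∑ i, F i) ^ 2 := by
  let G : Fin k × Fin k → ℤ := fun x => F x.1 * F x.2
  have h0 : (∑ i, F i) ^ 2 = ∑ x : Fin k × Fin k, G x := by
    rw [sq, Finset.sum_mul_sum, Fintype.sum_prod_type]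
  have h1 : ∑ x : Fin k × Fin k, G x =
      ∑ x ∈ univ.filter (fun x : Fin k × Fin k => x.1 < x.2), G x +
      (∑ x ∈ univ.filter (fun x : Fin k × Fin k => x.1 = x.2), G x +
      ∑ x ∈ univ.filter (fun x : Fin k × Fin k => x.2 < x.1), G x) := by
    rw [Finset.sum_filter, Finset.sum_filter, Finset.sum_filter, ← Finset.sum_add_distrib,
      ← Finset.sum_add_distrib]
    refine Finset.sum_congr rfl (fun x _ => ?_)
    rcases lt_trichotomy x.1 x.2 with h | h | h
    · simp [h, h.ne, h.not_gt]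
    · simp [h]
    · simp [h, h.ne', h.not_gt]
  have h2 : ∑ x ∈ univ.filter (fun x : Fin k × Fin k => x.2 < x.1), G x =
      ∑ x ∈ univ.filter (fun x : Fin k × Fin k => x.1 < x.2), G x := by
    refine Finset.sum_equiv (Equiv.prodComm _ _) ?_ ?_
    · intro x
      simp
    · intro x _
      simp only [G, Equiv.prodComm_apply, Prod.fst_swap, Prod.snd_swap]
      ring
  have h3 : ∑ x ∈ univ.filter (fun x : Fin k × Fin k => x.1 = x.2), G x = ∑ i, F i ^ 2 := by
    symm
    refine Finset.sum_bij (fun i _ => (i, i)) ?_ ?_ ?_ ?_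
    · intro i _
      simp
    · intro i _ j _ h
      exact (Prod.mk.inj h).1
    · intro x hx
      have hx' : x.1 = x.2 := (Finset.mem_filter.mp hx).2
      exact ⟨x.1, Finset.mem_univ _, Prod.ext rfl hx'⟩
    · intro i _
      simp only [G]
      ring
  have h4 : ∑ e : Pr k, F e.1.1 * F e.1.2 =
      ∑ x ∈ univ.filter (fun x : Fin k × Fin k => x.1 < x.2), G x := by
    rw [← Finset.sum_subtype_eq_sum_filter]
    simp [G, Pr]
  rw [h0, h1, h2, h3, h4]
  ring

/-- the sign of a unit vector -/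
def ff {k : ℕ} (l l' i : Fin k) : ℤ := (if i = l then -1 else 1) * (if i = l' then -1 else 1)

theorem sum_ff {k : ℕ} (l l' : Fin k) (h : l ≠ l') : ∑ i, ff l l' i = (k : ℤ) - 4 := by
  have h1 : ∀ i, ff l l' i = 1 - 2 * (if i = l then 1 else 0) - 2 * (if i = l' then 1 else 0) := by
    intro i
    simp only [ff]
    by_cases h2 : i = l
    · subst h2
      simp [h]
    · by_cases h3 : i = l'
      · subst h3
        simp [h2]
      · simp [h2, h3]
  rw [Finset.sum_congr rfl (fun i _ => h1 i), Finset.sum_sub_distrib, Finset.sum_sub_distrib,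
    ← Finset.mul_sum, ← Finset.mul_sum]
  simp
  ring

theorem ff_sq {k : ℕ} (l l' i : Fin k) : ff l l' i ^ 2 = 1 := by
  simp only [ff]
  split_ifs <;> norm_num

theorem sg_single {k : ℕ} (l l' i : Fin k) :
    sg ((Pi.single i 1 : Fin k → ZMod 2) l) * sg ((Pi.single i 1 : Fin k → ZMod 2) l') =
      ff l l' i := by
  have h : ∀ l : Fin k, sg ((Pi.single i 1 : Fin k → ZMod 2) l) = if i = l then -1 else 1 := by
    intro l
    by_cases h : i = l
    · subst h
      simp [sg]
    · simp [sg, h, Pi.single_apply, Ne.symm h]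
  rw [h, h, ff]

theorem sg_tw {k : ℕ} (l l' : Fin k) (e : Pr k) :
    sg (tw e l) * sg (tw e l') = ff l l' e.1.1 * ff l l' e.1.2 := by
  have hne : e.1.1 ≠ e.1.2 := ne_of_lt e.2
  have h : ∀ l : Fin k, sg (tw e l) = (if e.1.1 = l then -1 else 1) * (if e.1.2 = l then -1 else 1) := by
    intro l
    simp only [tw, sg]
    by_cases h1 : e.1.1 = l
    · have h2 : ¬ e.1.2 = l := fun h2 => hne (h1.trans h2.symm)
      simp [h1, h2]
    · by_cases h2 : e.1.2 = l
      · simp [h1, h2]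
      · simp [h1, h2, Ne.symm h1, Ne.symm h2]
  rw [h, h, ff, ff]
  ring

open Classical in
/-- the correction of the multiplicities -/
noncomputable def dl (k : ℕ) (τ : Fin k → ZMod 2) : ℤ :=
  (∑ i : Fin k, ((k : ℤ) - 1) * (if τ = Pi.single i 1 then 1 else 0)) -
  (∑ e : Pr k, (if τ = tw e then 1 else 0)) +
  (4 - (Fintype.card (Pr k) : ℤ)) * (if τ = 0 then 1 else 0)

open Classical in
theorem sum_dl (k : ℕ) (φ : (Fin k → ZMod 2) → ℤ) : ∑ τ, dl k τ * φ τ =
    ((k : ℤ) - 1) * ∑ i : Fin k, φ (Pi.single i 1) - ∑ e : Pr k, φ (tw e) +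
    (4 - (Fintype.card (Pr k) : ℤ)) * φ 0 := by
  have h1 : ∀ τ, dl k τ * φ τ = (∑ i : Fin k, ((k : ℤ) - 1) *
      (if τ = Pi.single i 1 then φ τ else 0)) - (∑ e : Pr k, (if τ = tw e then φ τ else 0)) +
      (4 - (Fintype.card (Pr k) : ℤ)) * (if τ = 0 then φ τ else 0) := by
    intro τ
    simp only [dl]
    rw [add_mul, sub_mul, Finset.sum_mul, Finset.sum_mul]
    congr 1
    · congr 1
      · refine Finset.sum_congr rfl (fun i _ => ?_)
        split_ifs <;> ring
      · refine Finset.sum_congr rfl (fun i _ => ?_)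
        split_ifs <;> ring
    · split_ifs <;> ring
  have hA : ∑ τ : Fin k → ZMod 2, ∑ i : Fin k, ((k : ℤ) - 1) *
      (if τ = Pi.single i 1 then φ τ else 0) = ((k : ℤ) - 1) * ∑ i : Fin k, φ (Pi.single i 1) := by
    rw [Finset.sum_comm, Finset.mul_sum]
    refine Finset.sum_congr rfl (fun i _ => ?_)
    rw [← Finset.mul_sum, Finset.sum_ite_eq' univ (Pi.single i (1 : ZMod 2)) φ,
      if_pos (Finset.mem_univ _)]
  have hB : ∑ τ : Fin k → ZMod 2, ∑ e : Pr k, (if τ = tw e then φ τ else 0) =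
      ∑ e : Pr k, φ (tw e) := by
    rw [Finset.sum_comm]
    refine Finset.sum_congr rfl (fun e _ => ?_)
    rw [Finset.sum_ite_eq' univ (tw e) φ, if_pos (Finset.mem_univ _)]
  have hC : ∑ τ : Fin k → ZMod 2, (4 - (Fintype.card (Pr k) : ℤ)) * (if τ = 0 then φ τ else 0) =
      (4 - (Fintype.card (Pr k) : ℤ)) * φ 0 := by
    rw [← Finset.mul_sum, Finset.sum_ite_eq' univ (0 : Fin k → ZMod 2) φ,
      if_pos (Finset.mem_univ _)]
  rw [Finset.sum_congr rfl (fun τ _ => h1 τ), Finset.sum_add_distrib, Finset.sum_sub_distrib,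
    hA, hB, hC]

theorem card_pr (k : ℕ) : 2 * (Fintype.card (Pr k) : ℤ) + k = (k : ℤ) ^ 2 := by
  have h := sum_pr (k := k) (fun _ => 1)
  simpa using h

theorem sum_dl_one (k : ℕ) : ∑ τ, dl k τ = 4 := by
  have h := sum_dl k (fun _ => 1)
  simp only [mul_one, Finset.sum_const, Finset.card_univ, nsmul_eq_mul, Fintype.card_fin] at h
  rw [h]
  have h2 := card_pr k
  linarith

theorem sum_dl_sg (k : ℕ) (l l' : Fin k) (hl : l ≠ l') :
    ∑ τ, dl k τ * (sg (τ l) * sg (τ l')) = 0 := by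
  rw [sum_dl k (fun τ => sg (τ l) * sg (τ l'))]
  rw [Finset.sum_congr rfl (fun i _ => sg_single l l' i), sum_ff l l' hl,
    Finset.sum_congr rfl (fun e _ => sg_tw l l' e)]
  have h1 := sum_pr (ff l l')
  rw [Finset.sum_congr rfl (fun i _ => ff_sq l l' i), sum_ff l l' hl] at h1
  simp only [Finset.sum_const, Finset.card_univ, nsmul_eq_mul, Fintype.card_fin, mul_one] at h1
  have h2 := card_pr k
  have h3 : sg ((0 : Fin k → ZMod 2) l) * sg ((0 : Fin k → ZMod 2) l') = 1 := by simp [sg]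
  rw [h3]
  linarith

theorem sum_uni_sg (k : ℕ) (l l' : Fin k) (hl : l ≠ l') :
    ∑ τ : Fin k → ZMod 2, (sg (τ l) * sg (τ l')) = 0 := by
  have h1 : ∑ τ : Fin k → ZMod 2, (sg (τ l) * sg (τ l')) =
      ∑ τ : Fin k → ZMod 2, (sg ((τ + Pi.single l 1 : Fin k → ZMod 2) l) *
        sg ((τ + Pi.single l 1 : Fin k → ZMod 2) l')) :=
    (Equiv.sum_comp (Equiv.addRight (Pi.single l (1 : ZMod 2)))
      (fun τ : Fin k → ZMod 2 => sg (τ l) * sg (τ l'))).symm
  have h2 : ∀ τ : Fin k → ZMod 2, (sg ((τ + Pi.single l 1 : Fin k → ZMod 2) l) *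
      sg ((τ + Pi.single l 1 : Fin k → ZMod 2) l')) =
      - (sg (τ l) * sg (τ l')) := by
    intro τ
    simp only [Pi.add_apply, Pi.single_eq_same, Pi.single_eq_of_ne hl.symm, add_zero, sg_add_one]
    ring
  rw [Finset.sum_congr rfl (fun τ _ => h2 τ), Finset.sum_neg_distrib] at h1
  linarith

theorem dl_ge (k : ℕ) (hk : 1 ≤ k) (τ : Fin k → ZMod 2) : - (2 * (Fintype.card (Pr k) : ℤ)) ≤ dl k τ := by
  classical
  simp only [dl]
  have h1 : 0 ≤ ∑ i : Fin k, ((k : ℤ) - 1) * (if τ = Pi.single i 1 then 1 else 0) := by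
    refine Finset.sum_nonneg (fun i _ => ?_)
    have : (1 : ℤ) ≤ k := by exact_mod_cast hk
    split_ifs <;> linarith
  have h2 : ∑ e : Pr k, (if τ = tw e then 1 else 0 : ℤ) ≤ Fintype.card (Pr k) := by
    refine (Finset.sum_le_sum (g := fun _ => (1 : ℤ)) (fun e _ => ?_)).trans ?_
    · split_ifs <;> norm_num
    · simp
  have h3 : - (Fintype.card (Pr k) : ℤ) ≤ (4 - (Fintype.card (Pr k) : ℤ)) * (if τ = 0 then 1 else 0) := by
    have : (0 : ℤ) ≤ Fintype.card (Pr k) := by positivity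
    split_ifs <;> linarith
  linarith

theorem pf_SGN : T_SGN := by
  classical
  intro k
  rcases Nat.lt_or_ge k 2 with hk | hk
  · have he : IsEmpty (Pr k) := by
      constructor
      rintro ⟨⟨i, j⟩, h⟩
      have h1 := i.2
      have h2 := j.2
      have h3 : (i : ℕ) < j := h
      omega
    refine ⟨0, fun m _ => ⟨fun _ _ => 0, fun z => (he.false z.1).elim, ?_, ?_, ?_⟩⟩
    · intro l l' hl
      exfalso
      apply hl
      apply Fin.ext
      have h1 := l.2
      have h2 := l'.2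
      omega
    · intro z
      exact (he.false z.1).elim
    · intro e
      exact (he.false e).elim
  · obtain ⟨q, rfl⟩ : ∃ q, k = q + 2 := ⟨k - 2, by omega⟩
    set k := q + 2 with hkdef
    set P := Fintype.card (Pr k) with hP
    refine ⟨2 ^ q * (2 ^ q * (2 * P) + 4 * P), fun m hm => ?_⟩
    have h2q : 0 < 2 ^ q := by positivity
    set N := m / 2 ^ q with hN
    set j := m % 2 ^ q with hj
    have hm2 : 2 ^ q * N + j = m := Nat.div_add_mod m (2 ^ q)
    have hjlt : j < 2 ^ q := Nat.mod_lt _ h2q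
    have hNge : 2 ^ q * (2 * P) + 4 * P ≤ N := by
      rw [hN, Nat.le_div_iff_mul_le h2q]
      linarith
    let n : (Fin k → ZMod 2) → ℕ := fun τ => ((N : ℤ) + j * dl k τ).toNat
    have hn : ∀ τ, ((n τ : ℕ) : ℤ) = (N : ℤ) + j * dl k τ ∧ 4 * P ≤ n τ := by
      intro τ
      have h1 := dl_ge k (by omega) τ
      have h2 : (j : ℤ) * (2 * P) ≤ 2 ^ q * (2 * P) := by
        have : (j : ℤ) ≤ 2 ^ q := by exact_mod_cast hjlt.le
        exact mul_le_mul_of_nonneg_right this (by positivity)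
      have h3 : (j : ℤ) * (-(2 * (P : ℤ))) ≤ j * dl k τ :=
        mul_le_mul_of_nonneg_left h1 (by positivity)
      have h4 : ((2 ^ q * (2 * P) + 4 * P : ℕ) : ℤ) ≤ N := by exact_mod_cast hNge
      push_cast at h4
      have h5 : (4 * P : ℤ) ≤ (N : ℤ) + j * dl k τ := by linarith
      have h6 : (0 : ℤ) ≤ (N : ℤ) + j * dl k τ := le_trans (by positivity) h5
      have h7 : ((n τ : ℕ) : ℤ) = (N : ℤ) + j * dl k τ := Int.toNat_of_nonneg h6
      refine ⟨h7, ?_⟩
      have h8 : ((4 * P : ℕ) : ℤ) ≤ ((n τ : ℕ) : ℤ) := by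
        rw [h7]; push_cast; exact h5
      exact_mod_cast h8
    have hsum : ∀ φ : (Fin k → ZMod 2) → ℤ, ∑ τ, ((n τ : ℕ) : ℤ) * φ τ =
        N * ∑ τ, φ τ + j * ∑ τ, dl k τ * φ τ := by
      intro φ
      rw [Finset.mul_sum, Finset.mul_sum, ← Finset.sum_add_distrib]
      refine Finset.sum_congr rfl (fun τ _ => ?_)
      rw [(hn τ).1]
      ring
    have hcard : Fintype.card (Σ τ : Fin k → ZMod 2, Fin (n τ)) = Fintype.card (Fin (4 * m)) := by
      rw [Fintype.card_sigma, Fintype.card_fin]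
      simp only [Fintype.card_fin]
      have h1 := hsum (fun _ => 1)
      simp only [mul_one, sum_dl_one] at h1
      have h2 : ((∑ τ : Fin k → ZMod 2, n τ : ℕ) : ℤ) = ((4 * m : ℕ) : ℤ) := by
        push_cast
        rw [h1, Finset.sum_const, Finset.card_univ, Fintype.card_fun, ZMod.card, Fintype.card_fin,
          ← hm2, hkdef]
        push_cast
        ring
      exact_mod_cast h2
    let E := Fintype.equivOfCardEq hcard
    let idx := Fintype.equivFin (Pr k)
    let ty : Pr k × Fin 4 → Fin k → ZMod 2 := fun z => if z.2 = 3 then tw z.1 else 0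
    have hlt : ∀ z : Pr k × Fin 4, 4 * (idx z.1 : ℕ) + (z.2 : ℕ) < n (ty z) := by
      intro z
      have h1 := (hn (ty z)).2
      have h2 : (idx z.1 : ℕ) < P := (idx z.1).2
      have h3 : (z.2 : ℕ) < 4 := z.2.2
      omega
    let f0 : Pr k × Fin 4 → Σ τ : Fin k → ZMod 2, Fin (n τ) := fun z =>
      ⟨ty z, ⟨4 * (idx z.1 : ℕ) + (z.2 : ℕ), hlt z⟩⟩
    refine ⟨fun s => (E.symm s).1, fun z => E (f0 z), ?_, ?_, ?_⟩
    · refine bal_of _ (fun l l' hl => ?_)
      rw [Equiv.sum_comp E.symm (fun x : Σ τ : Fin k → ZMod 2, Fin (n τ) =>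
        sg (x.1 l) * sg (x.1 l')), Fintype.sum_sigma]
      simp only [Finset.sum_const, Finset.card_univ, Fintype.card_fin, nsmul_eq_mul]
      rw [hsum (fun τ => sg (τ l) * sg (τ l')), sum_uni_sg k l l' hl, sum_dl_sg k l l' hl]
      simp
    · intro z z' h
      have h1 : f0 z = f0 z' := E.injective h
      have h2 : ∀ x y : Σ τ : Fin k → ZMod 2, Fin (n τ), x = y → (x.2 : ℕ) = (y.2 : ℕ) := by
        rintro x y rfl; rfl
      have h3 := h2 _ _ h1
      simp only [f0] at h3
      have h4 : (z.2 : ℕ) < 4 := z.2.2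
      have h5 : (z'.2 : ℕ) < 4 := z'.2.2
      have h6 : (idx z.1 : ℕ) = idx z'.1 := by omega
      have h7 : (z.2 : ℕ) = z'.2 := by omega
      exact Prod.ext (idx.injective (Fin.ext h6)) (Fin.ext h7)
    · intro e r
      simp only [Equiv.symm_apply_apply, f0, ty]

end Pool.Agent.H51.DM
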