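import Pool.Agent.H51.DM.CHO
import Pool.Agent.H51.DM.EMB
import Pool.Agent.H51.DM.SGN
import Pool.Agent.H51.DM.LAB
import Pool.Agent.H51.DM.CRT

set_option autoImplicit false

open Finset

namespace Pool.Agent.H51.DM

theorem pf_ONE : T_ONE := by
  intro k
  obtain ⟨m₀, hm₀⟩ := pf_SGN k
  refine ⟨max m₀ (4 * k ^ 2 + 1), fun m hm => ?_⟩
  obtain ⟨a, f, hB, hP⟩ := hm₀ m ((le_max_left _ _).trans hm)
  have hkm : 4 * k ^ 2 < m := by
    have := (le_max_right m₀ (4 * k ^ 2 + 1)).trans hm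
    omega
  obtain ⟨p₀, hp₀⟩ := pf_CHO pf_LAB pf_EMB k m a f (by omega) hkm hB hP
  refine ⟨max p₀ 3, fun p hp hpp hmod => ?_⟩
  have h3 : 3 ≤ p := (le_max_right _ _).trans hpp
  exact pf_CRT p k hp (by omega) (hp₀ p hp ((le_max_left _ _).trans hpp) hmod)

end Pool.Agent.H51.DM
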