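import Pool.Agent.H71.DM.Targets
import Pool.Agent.H71.DM.Basic

set_option autoImplicit false

/-!
Modules PGU, RU, PSN, POW of the board dm_modules.
-/

namespace Pool.Agent.H51.DM

open Finset Pool.Agent.H71.DM

/-- PGU, first half. -/
theorem pigU : PigUStmt := by
  intro C _ P h
  by_contra hcon
  push Not at hcon
  have h1 : ∀ c, ∀ᶠ n in UU, ¬ P n c := hcon
  have h2 : ∀ᶠ n in UU, ∀ c, ¬ P n c := Filter.eventually_all.mpr h1
  obtain ⟨n, hn1, hn2⟩ := (h.and h2).exists
  obtain ⟨c, hc⟩ := hn1
  exact hn2 c hc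

/-- PGU, second half. -/
theorem diag : DiagStmt := by
  classical
  intro X _ P hmono hex
  -- the largest `k ≤ n` with a witness
  let Q : ℕ → ℕ → Prop := fun n k => ∃ x, P n k x
  have hch : ∀ n, ∃ x : X n, ∀ k, k ≤ n → Q n k → (∀ k', k < k' → k' ≤ n → ¬ Q n k') →
      P n k x := by
    intro n
    by_cases h : ∃ k, k ≤ n ∧ Q n k
    · have hk := Nat.findGreatest_spec (P := Q n) h.choose_spec.1 h.choose_spec.2
      obtain ⟨x, hx⟩ := hk
      refine ⟨x, fun k hkn hk hmax => ?_⟩
      have hle : Nat.findGreatest (Q n) n ≤ k := by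
        by_contra hlt
        push Not at hlt
        exact hmax _ hlt (Nat.findGreatest_le n) ⟨x, hx⟩
      have hge : k ≤ Nat.findGreatest (Q n) n := Nat.le_findGreatest hkn hk
      have he : Nat.findGreatest (Q n) n = k := le_antisymm hle hge
      rw [he] at hx
      exact hx
    · push Not at h
      exact ⟨Classical.arbitrary _, fun k hk hq _ => absurd hq (h k hk)⟩
  choose x hx using hch
  refine ⟨x, fun k => ?_⟩
  filter_upwards [ev_ge k, hex k] with n hn hq
  -- the largest index is at least k
  have hg := Nat.findGreatest_spec (P := Q n) hn hq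
  have hge : k ≤ Nat.findGreatest (Q n) n := Nat.le_findGreatest hn hq
  refine hmono n k _ (x n) hge (hx n _ (Nat.findGreatest_le n) hg ?_)
  intro k' hk' hk'n hQ
  exact absurd (Nat.le_findGreatest hk'n hQ) (not_le.mpr hk')

/-- RU, unions. -/
theorem richUnion : RichUnionStmt := by
  classical
  intro G Q _ S Z hS hcov
  by_contra hcon
  push Not at hcon
  have h1 : ∀ w, ∃ k, ∀ᶠ n in UU, ¬ KRich (G.adj n) k (Z w n) := fun w =>
    not_rich.mp (hcon w)
  choose k hk using h1
  have h2 : ∀ᶠ n in UU, ∀ w, ¬ KRich (G.adj n) (k w) (Z w n) := Filter.eventually_all.mpr hk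
  obtain ⟨n, hn1, hn2, hn3⟩ := ((hS (∑ w, k w)).and (hcov.and h2)).exists
  have h3 : ∀ w, ∃ D : Finset (G.V n), D.card ≤ k w ∧ ∀ y ∈ Z w n, ∃ d ∈ D, ¬ G.adj n y d :=
    fun w => not_krich.mp (hn3 w)
  choose D hD1 hD2 using h3
  obtain ⟨y, hy, hy2⟩ := hn1 (univ.biUnion D)
    (Finset.card_biUnion_le.trans (Finset.sum_le_sum fun w _ => hD1 w))
  obtain ⟨w, hw⟩ := hn2 y hy
  obtain ⟨d, hd, hd2⟩ := hD2 w y hw
  exact hd2 (hy2 d (Finset.mem_biUnion.mpr ⟨w, mem_univ _, hd⟩))

/-- RU, differences. -/
theorem richDiff : RichDiffStmt := by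
  classical
  intro G Q _ S Z hS hZ
  obtain ⟨w, hw⟩ := richUnion G (Option Q) S
    (fun o n => o.elim {s | s ∈ S n ∧ ∀ w, s ∉ Z w n} (fun w => Z w n)) hS (by
      refine Filter.Eventually.of_forall fun n s hs => ?_
      by_cases h : ∃ w, s ∈ Z w n
      · obtain ⟨w, hw⟩ := h
        exact ⟨some w, hw⟩
      · push Not at h
        exact ⟨none, hs, h⟩)
  cases w with
  | none => exact hw
  | some w => exact absurd hw (hZ w)

/-- RU, in-neighbourhoods. -/
theorem richNin : RichNinStmt := by
  classical
  intro G S K D hS hD k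
  filter_upwards [hS (k + K), hD] with n h1 h2
  intro D' hD'
  obtain ⟨y, hy, hy2⟩ := h1 (D' ∪ D n) ((Finset.card_union_le _ _).trans (by omega))
  refine ⟨y, ⟨hy, fun d hd => hy2 d (Finset.mem_union_right _ hd)⟩, fun d hd => ?_⟩
  exact hy2 d (Finset.mem_union_left _ hd)

/-- PSN. -/
theorem patSnoc : PatSnocStmt := by
  intro V adj H p x s
  unfold Pat
  constructor
  · intro h
    refine ⟨fun a b hab => ?_, fun i => ?_⟩
    · have := h (Fin.castSucc a) (Fin.castSucc b) (by simpa using hab)
      simpa only [Fin.snoc_castSucc, Fin.val_castSucc] using this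
    · have := h (Fin.castSucc i) (Fin.last p) (Fin.castSucc_lt_last i)
      simpa only [Fin.snoc_castSucc, Fin.snoc_last, Fin.val_castSucc, Fin.val_last] using this
  · rintro ⟨h1, h2⟩ a b hab
    induction b using Fin.lastCases with
    | last =>
      induction a using Fin.lastCases with
      | last => exact absurd hab (lt_irrefl _)
      | cast i =>
        simpa only [Fin.snoc_castSucc, Fin.snoc_last, Fin.val_castSucc, Fin.val_last] using h2 i
    | cast j =>
      induction a using Fin.lastCases with
      | last =>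
        exact absurd (hab.trans (Fin.castSucc_lt_last j)) (lt_irrefl _)
      | cast i =>
        have := h1 i j (by simpa using hab)
        simpa only [Fin.snoc_castSucc, Fin.val_castSucc] using this

/-- POW. -/
theorem pow : PowStmt := by
  classical
  intro R I X _ _ _ _ _ q hq A
  have h1 : ∀ x : R × I → X, prodW (fun ri : R × I => q ri.2) x *
      ind (∀ r, A (fun i => x (r, i))) =
      ∏ r, (prodW q (fun i => x (r, i)) * ind (A (fun i => x (r, i)))) := by
    intro x
    rw [Finset.prod_mul_distrib]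
    congr 1
    · unfold prodW
      rw [Fintype.prod_prod_type]
    · unfold ind
      by_cases h : ∀ r, A (fun i => x (r, i))
      · rw [if_pos h, Finset.prod_eq_one fun r _ => if_pos (h r)]
      · rw [if_neg h]
        push Not at h
        obtain ⟨r, hr⟩ := h
        exact (Finset.prod_eq_zero (mem_univ r) (if_neg hr)).symm
  unfold pr ex
  simp only [h1]
  rw [← Equiv.sum_comp (Equiv.curry R I X).symm]
  simp only [Equiv.curry_symm_apply, Function.uncurry_apply_pair]
  have h2 := Finset.prod_univ_sum (fun _ : R => (univ : Finset (I → X)))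
    (fun _ y => prodW q y * ind (A y))
  rw [Fintype.piFinset_univ] at h2
  rw [← h2, Finset.prod_const, Finset.card_univ]

end Pool.Agent.H51.DM
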