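import Pool.Agent.H51.DM.ONE
import Pool.Agent.H48.PF.BT

set_option autoImplicit false

open Finset

namespace Pool.Agent.H51.DM

/-- Chebyshev (copied from `Pool.Agent.H36.GF.ELL`) -/
lemma pi_lower {Q : ℕ} (hQ : 4 ≤ Q) : (Q : ℝ) / 4 ≤ Real.log Q * Nat.primeCounting Q := by
  have h1 := Chebyshev.pi_ge Q
  have hQ' : (4 : ℝ) ≤ Q := by exact_mod_cast hQ
  have hlog : 0 < Real.log Q := Real.log_pos (by linarith)
  rw [div_le_iff₀ hlog] at h1
  have h2 : Real.log (Q + 1) ≤ 0.84 + 0.2 * Q := by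
    have e : ((Q : ℝ) + 1) = 5 * ((Q + 1) / 5) := by ring
    rw [e, Real.log_mul (by norm_num) (by positivity)]
    have h3 := Real.log_le_sub_one_of_pos (show (0 : ℝ) < (Q + 1) / 5 by positivity)
    have h4 : Real.log 5 ≤ 1.64 := by
      have h5 : Real.log 5 = Real.log (5 / 4) + 2 * Real.log 2 := by
        rw [show (5 : ℝ) = 5 / 4 * (2 * 2) by norm_num, Real.log_mul (by norm_num) (by norm_num),
          Real.log_mul (by norm_num) (by norm_num)]
        norm_num
        ring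
      have h6 := Real.log_le_sub_one_of_pos (show (0 : ℝ) < 5 / 4 by norm_num)
      have := Real.log_two_lt_d9
      rw [h5]
      linarith
    linarith
  have := Real.log_two_gt_d9
  nlinarith

theorem exists_primes (m₀ : ℕ) (B : ℝ) : ∃ S : Finset ℕ,
    (∀ l ∈ S, l.Prime ∧ m₀ ≤ l ∧ 3 ≤ l) ∧ B ≤ ∑ l ∈ S, (1 : ℝ) / l := by
  classical
  set g : ℕ → ℝ := Set.indicator {p : ℕ | p.Prime} (fun n : ℕ => (1 : ℝ) / n) with hg
  have hg0 : ∀ n, 0 ≤ g n := by
    intro n
    rw [hg]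
    exact Set.indicator_nonneg (fun _ _ => by positivity) _
  have h1 : Filter.Tendsto (fun n : ℕ => ∑ i ∈ range n, g i) Filter.atTop Filter.atTop :=
    (not_summable_iff_tendsto_nat_atTop_of_nonneg hg0).mp not_summable_one_div_on_primes
  set M := max m₀ 3 with hM
  obtain ⟨N, hN⟩ := (Filter.tendsto_atTop.mp h1 (B + ∑ i ∈ range M, g i)).exists
  refine ⟨(range N).filter (fun l => l.Prime ∧ M ≤ l), ?_, ?_⟩
  · intro l hl
    have h2 := (Finset.mem_filter.mp hl).2
    exact ⟨h2.1, (le_max_left _ _).trans h2.2, (le_max_right _ _).trans h2.2⟩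
  · have h3 : ∑ i ∈ range N, g i ≤ ∑ i ∈ range M, g i +
        ∑ l ∈ (range N).filter (fun l => l.Prime ∧ M ≤ l), (1 : ℝ) / l := by
      have h4 : ∑ l ∈ (range N).filter (fun l => l.Prime ∧ M ≤ l), (1 : ℝ) / l =
          ∑ l ∈ (range N).filter (fun l => M ≤ l), g l := by
        rw [Finset.sum_filter, Finset.sum_filter]
        refine Finset.sum_congr rfl (fun l _ => ?_)
        by_cases h5 : l.Prime
        · by_cases h6 : M ≤ l
          · rw [if_pos ⟨h5, h6⟩, if_pos h6, hg, Set.indicator_of_mem (by exact h5)]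
          · rw [if_neg (fun h => h6 h.2), if_neg h6]
        · rw [if_neg (fun h => h5 h.1), hg, Set.indicator_of_notMem (by exact h5)]
          simp
      rw [h4, ← Finset.sum_filter_add_sum_filter_not (range N) (fun l => M ≤ l), add_comm]
      refine add_le_add ?_ le_rfl
      refine Finset.sum_le_sum_of_subset_of_nonneg ?_ (fun i _ _ => hg0 i)
      intro l hl
      have := (Finset.mem_filter.mp hl).2
      exact Finset.mem_range.mpr (not_le.mp this)
    linarith

/-- the number of the classes -/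
theorem classes (S : Finset ℕ) (hS : ∀ l ∈ S, l.Prime ∧ 3 ≤ l) :
    ((range (∏ l ∈ S, l)).filter (fun a => Nat.Coprime a (∏ l ∈ S, l) ∧
      ∀ l ∈ S, a % l ≠ 1)).card ≤ ∏ l ∈ S, (l - 2) := by
  classical
  have h1 : (S.pi (fun l => Icc 2 (l - 1))).card = ∏ l ∈ S, (l - 2) := by
    rw [Finset.card_pi]
    refine Finset.prod_congr rfl (fun l hl => ?_)
    rw [Nat.card_Icc]
    have := (hS l hl).2
    omega
  rw [← h1]
  refine Finset.card_le_card_of_injOn (fun a l _ => a % l) ?_ ?_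
  · intro a ha
    have ha' := (Finset.mem_filter.mp (Finset.mem_coe.mp ha)).2
    refine Finset.mem_coe.mpr (Finset.mem_pi.mpr (fun l hl => ?_))
    have hp := (hS l hl).1
    have h3 := (hS l hl).2
    have h4 := ha'.2 l hl
    have h5 : a % l < l := Nat.mod_lt _ hp.pos
    have h6 : a % l ≠ 0 := by
      intro h
      have h7 : l ∣ a := Nat.dvd_of_mod_eq_zero h
      have h8 : l ∣ ∏ l ∈ S, l := Finset.dvd_prod_of_mem (fun l => l) hl
      have h9 : l ∣ 1 := ha'.1 ▸ Nat.dvd_gcd h7 h8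
      exact hp.one_lt.ne' (Nat.dvd_one.mp h9)
    change a % l ∈ Icc 2 (l - 1)
    rw [Finset.mem_Icc]
    omega
  · intro a ha b hb hab
    have ha1 := Finset.mem_range.mp (Finset.mem_filter.mp (Finset.mem_coe.mp ha)).1
    have hb1 := Finset.mem_range.mp (Finset.mem_filter.mp (Finset.mem_coe.mp hb)).1
    have h2 : ∀ l ∈ S, a % l = b % l := fun l hl => congrFun (congrFun hab l) hl
    have h3 : (∏ l ∈ S, (l : ℤ)) ∣ (b : ℤ) - a := by
      refine Finset.prod_dvd_of_coprime ?_ ?_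
      · intro l hl l' hl' hne
        have := (Nat.coprime_primes (hS l hl).1 (hS l' hl').1).mpr hne
        exact Nat.isCoprime_iff_coprime.mpr this
      · intro l hl
        exact (Nat.modEq_iff_dvd.mp (h2 l hl))
    have h4 : ((∏ l ∈ S, l : ℕ) : ℤ) ∣ (b : ℤ) - a := by
      push_cast
      exact h3
    have h5 : a ≡ b [MOD ∏ l ∈ S, l] := Nat.modEq_iff_dvd.mpr h4
    have h6 : a % (∏ l ∈ S, l) = b % (∏ l ∈ S, l) := h5
    rwa [Nat.mod_eq_of_lt ha1, Nat.mod_eq_of_lt hb1] at h6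

theorem totient_prod (S : Finset ℕ) (hS : ∀ l ∈ S, l.Prime) :
    (∏ l ∈ S, l).totient = ∏ l ∈ S, (l - 1) := by
  classical
  induction S using Finset.induction_on with
  | empty => simp
  | insert a s ha ih =>
    rw [Finset.prod_insert ha, Finset.prod_insert ha, Nat.totient_mul, ih (fun l hl =>
      hS l (Finset.mem_insert_of_mem hl)), Nat.totient_prime (hS a (Finset.mem_insert_self _ _))]
    refine Nat.Coprime.prod_right (fun l hl => ?_)
    refine (Nat.coprime_primes (hS a (Finset.mem_insert_self _ _))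
      (hS l (Finset.mem_insert_of_mem hl))).mpr ?_
    rintro rfl
    exact ha hl

theorem ratio_le (S : Finset ℕ) (hS : ∀ l ∈ S, l.Prime ∧ 3 ≤ l) :
    ((∏ l ∈ S, (l - 2) : ℕ) : ℝ) ≤
      Real.exp (- ∑ l ∈ S, (1 : ℝ) / l) * ((∏ l ∈ S, (l - 1) : ℕ) : ℝ) := by
  have h1 : Real.exp (- ∑ l ∈ S, (1 : ℝ) / l) * ((∏ l ∈ S, (l - 1) : ℕ) : ℝ) =
      ∏ l ∈ S, (Real.exp (- ((1 : ℝ) / l)) * ((l - 1 : ℕ) : ℝ)) := by
    rw [Finset.prod_mul_distrib, ← Finset.sum_neg_distrib, Real.exp_sum]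
    push_cast
    rfl
  rw [h1]
  push_cast
  refine Finset.prod_le_prod (fun l _ => Nat.cast_nonneg _) (fun l hl => ?_)
  have h3 := (hS l hl).2
  have hl0 : (3 : ℝ) ≤ l := by exact_mod_cast h3
  rw [Nat.cast_sub (by omega), Nat.cast_sub (by omega)]
  push_cast
  have h4 : 1 - (1 : ℝ) / l ≤ Real.exp (- ((1 : ℝ) / l)) := by
    have := Real.add_one_le_exp (- ((1 : ℝ) / l))
    linarith
  have h5 : (l : ℝ) - 2 ≤ (1 - (1 : ℝ) / l) * (l - 1) := by
    have h6 : (1 - (1 : ℝ) / l) * (l - 1) = l - 2 + 1 / l := by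
      field_simp
      ring
    rw [h6]
    have : (0 : ℝ) ≤ 1 / l := by positivity
    linarith
  refine h5.trans ?_
  exact mul_le_mul_of_nonneg_right h4 (by linarith)

open Classical in
theorem pf_TWO : T_TWO := by
  intro k
  obtain ⟨m₀, hm₀⟩ := pf_ONE k
  obtain ⟨C, hC, hbt⟩ := Pool.Agent.H48.PF.bt
  rw [Metric.tendsto_atTop]
  intro ε hε
  obtain ⟨S, hS1, hS2⟩ := exists_primes m₀ (Real.log (16 * C / ε))
  have hSp : ∀ l ∈ S, l.Prime ∧ 3 ≤ l := fun l hl => ⟨(hS1 l hl).1, (hS1 l hl).2.2⟩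
  set Q := ∏ l ∈ S, l with hQ
  have hQ0 : 0 < Q := Finset.prod_pos (fun l hl => (hS1 l hl).1.pos)
  have hp0 : ∃ p₀ : ℕ, ∀ l ∈ S, ∀ p : ℕ, p.Prime → p₀ ≤ p → p ≡ 1 [MOD l] → HasDM p k := by
    have h1 : ∀ l ∈ S, ∃ p₀ : ℕ, ∀ p : ℕ, p.Prime → p₀ ≤ p → p ≡ 1 [MOD l] → HasDM p k :=
      fun l hl => hm₀ l (hS1 l hl).2.1
    choose! p₀ hp₀ using h1
    refine ⟨∑ l ∈ S, p₀ l, fun l hl p hp hpp => hp₀ l hl p hp ?_⟩
    exact (Finset.single_le_sum (f := p₀) (fun i _ => Nat.zero_le _) hl).trans hpp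
  obtain ⟨p₀, hp₀⟩ := hp0
  set P := max p₀ (Q + 1) with hP
  set R := (range Q).filter (fun a => Nat.Coprime a Q ∧ ∀ l ∈ S, a % l ≠ 1) with hR
  have hcover : ∀ x : ℕ, (Icc 1 x).filter (fun p => p.Prime ∧ ¬ HasDM p k) ⊆
      range P ∪ R.biUnion (fun a => (Icc 1 x).filter (fun p => p.Prime ∧ p % Q = a % Q)) := by
    intro x p hp
    obtain ⟨h1, h2, h3⟩ := Finset.mem_filter.mp hp
    rw [Finset.mem_union]
    by_cases h4 : p < P
    · exact Or.inl (Finset.mem_range.mpr h4)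
    · right
      rw [not_lt] at h4
      have h5 : p₀ ≤ p := (le_max_left _ _).trans h4
      have h6 : Q + 1 ≤ p := (le_max_right _ _).trans h4
      refine Finset.mem_biUnion.mpr ⟨p % Q, ?_, Finset.mem_filter.mpr ⟨h1, h2, ?_⟩⟩
      · refine Finset.mem_filter.mpr ⟨Finset.mem_range.mpr (Nat.mod_lt _ hQ0), ?_, ?_⟩
        · have h7 : Nat.Coprime p Q := by
            rw [Nat.Prime.coprime_iff_not_dvd h2]
            intro h
            have := Nat.le_of_dvd hQ0 h
            omega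
          rw [Nat.Coprime, ← Nat.gcd_rec, Nat.gcd_comm]
          exact h7
        · intro l hl h7
          apply h3
          refine hp₀ l hl p h2 h5 ?_
          have h8 : l ∣ Q := Finset.dvd_prod_of_mem (fun l => l) hl
          rw [Nat.mod_mod_of_dvd _ h8] at h7
          rw [Nat.ModEq, h7, Nat.mod_eq_of_lt (hS1 l hl).1.one_lt]
      · rw [Nat.mod_mod]
  have hRle : (R.card : ℝ) ≤ ε / (16 * C) * (Q.totient : ℝ) := by
    have h1 : (R.card : ℝ) ≤ ((∏ l ∈ S, (l - 2) : ℕ) : ℝ) := by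
      exact_mod_cast classes S hSp
    have h2 := ratio_le S hSp
    rw [← totient_prod S (fun l hl => (hSp l hl).1)] at h2
    refine h1.trans (h2.trans ?_)
    refine mul_le_mul_of_nonneg_right ?_ (Nat.cast_nonneg _)
    have h3 : Real.exp (- ∑ l ∈ S, (1 : ℝ) / l) ≤ Real.exp (- Real.log (16 * C / ε)) :=
      Real.exp_le_exp.mpr (neg_le_neg hS2)
    refine h3.trans ?_
    rw [Real.exp_neg, Real.exp_log (by positivity), inv_div]
  obtain ⟨x₁, hx₁⟩ := (Filter.tendsto_atTop.mp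
    (tendsto_natCast_atTop_atTop.comp Nat.tendsto_primeCounting :
      Filter.Tendsto (fun n : ℕ => ((Nat.primeCounting n : ℕ) : ℝ)) Filter.atTop Filter.atTop)
    (2 * P / ε + 1)).exists_forall_of_atTop
  refine ⟨max (max x₁ 4) (Q ^ 4), fun x hx => ?_⟩
  have hx1 : x₁ ≤ x := (le_max_left _ _).trans ((le_max_left _ _).trans hx)
  have hx4 : 4 ≤ x := (le_max_right _ _).trans ((le_max_left _ _).trans hx)
  have hxQ : Q ^ 4 ≤ x := (le_max_right _ _).trans hx
  have hpi : 2 * (P : ℝ) / ε + 1 ≤ (Nat.primeCounting x : ℝ) := hx₁ x hx1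
  have hpi0 : 0 < (Nat.primeCounting x : ℝ) := by
    have : 0 ≤ 2 * (P : ℝ) / ε := by positivity
    linarith
  have hlog : 0 < Real.log x := Real.log_pos (by
    have : (4 : ℝ) ≤ x := by exact_mod_cast hx4
    linarith)
  have hcard : (((Icc 1 x).filter (fun p => p.Prime ∧ ¬ HasDM p k)).card : ℝ) ≤
      P + R.card * (C * x / (Q.totient * Real.log x)) := by
    have h1 := (Finset.card_le_card (hcover x)).trans (Finset.card_union_le _ _)
    rw [Finset.card_range] at h1
    have h2 : ((R.biUnion (fun a => (Icc 1 x).filter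
        (fun p => p.Prime ∧ p % Q = a % Q))).card : ℝ) ≤
        ∑ a ∈ R, (((Icc 1 x).filter (fun p => p.Prime ∧ p % Q = a % Q)).card : ℝ) := by
      exact_mod_cast Finset.card_biUnion_le
    have h3 : ∑ a ∈ R, (((Icc 1 x).filter (fun p => p.Prime ∧ p % Q = a % Q)).card : ℝ) ≤
        R.card * (C * x / (Q.totient * Real.log x)) := by
      rw [← nsmul_eq_mul, ← Finset.sum_const]
      refine Finset.sum_le_sum (fun a ha => ?_)
      exact hbt x Q a (by omega) hQ0 hxQ (Finset.mem_filter.mp ha).2.1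
    have h4 : (((Icc 1 x).filter (fun p => p.Prime ∧ ¬ HasDM p k)).card : ℝ) ≤
        P + ((R.biUnion (fun a => (Icc 1 x).filter
        (fun p => p.Prime ∧ p % Q = a % Q))).card : ℝ) := by exact_mod_cast h1
    linarith
  have htot : (0 : ℝ) < Q.totient := by exact_mod_cast Nat.totient_pos.mpr hQ0
  have h5 : R.card * (C * x / (Q.totient * Real.log x)) ≤ ε / 16 * (x / Real.log x) := by
    have h6 : (0 : ℝ) ≤ C * x / (Q.totient * Real.log x) := by positivity
    refine (mul_le_mul_of_nonneg_right hRle h6).trans (le_of_eq ?_)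
    field_simp
  have h7 : (x : ℝ) / Real.log x ≤ 4 * Nat.primeCounting x := by
    rw [div_le_iff₀ hlog]
    have := pi_lower hx4
    linarith
  have h8 : (((Icc 1 x).filter (fun p => p.Prime ∧ ¬ HasDM p k)).card : ℝ) <
      ε * Nat.primeCounting x := by
    have h9 : (P : ℝ) < ε / 2 * Nat.primeCounting x := by
      have h10 : 2 * (P : ℝ) / ε < Nat.primeCounting x := by linarith
      rw [div_lt_iff₀ hε] at h10
      linarith
    have h11 : ε / 16 * (x / Real.log x) ≤ ε / 16 * (4 * Nat.primeCounting x) := by gcongr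
    nlinarith
  rw [Real.dist_eq, sub_zero, abs_of_nonneg (by positivity), div_lt_iff₀ hpi0]
  exact h8

end Pool.Agent.H51.DM
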