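import Mathlib

/-!
MP_2e096d_co: difference matrices over `ZMod (2 * p)` with `4 * p` columns and any fixed number
of rows, for almost all primes `p`.
-/

set_option autoImplicit false

open Finset

namespace Pool.Agent.H51.DM

/-- there is a `(2 p, k, 2)`-difference matrix over `ZMod (2 * p)` -/
def HasDM (p k : ℕ) : Prop :=
  ∃ D : Fin k → Fin (4 * p) → ZMod (2 * p),
    ∀ i j : Fin k, i ≠ j → ∀ x : ZMod (2 * p),
      (Finset.univ.filter (fun l : Fin (4 * p) => D i l - D j l = x)).card = 2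

/-- the unordered pairs of rows -/
abbrev Pr (k : ℕ) : Type := {e : Fin k × Fin k // e.1 < e.2}

/-- the sign vector with ones at the two rows of `e` -/
def tw {k : ℕ} (e : Pr k) : Fin k → ZMod 2 :=
  fun l => if l = e.1.1 ∨ l = e.1.2 then 1 else 0

/-- the transposition of the two rows of `e` -/
def sw {k : ℕ} (e : Pr k) : Equiv.Perm (Fin k) := Equiv.swap e.1.1 e.1.2

/-- `x` is a unit of label `c` -/
def Lb {p m : ℕ} (χ : (ZMod p)ˣ →* Multiplicative (ZMod m)) (x : ZMod p) (c : ZMod m) : Prop :=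
  ∃ u : (ZMod p)ˣ, (u : ZMod p) = x ∧ χ u = Multiplicative.ofAdd c

/-- the signs are balanced for all pairs of rows -/
def Bal {k m : ℕ} (a : Fin (4 * m) → Fin k → ZMod 2) : Prop :=
  ∀ l l' : Fin k, l ≠ l' → ∀ ε : ZMod 2,
    (univ.filter (fun s => a s l - a s l' = ε)).card = 2 * m

/-- the planted base columns: `f (e, 0)`, `f (e, 1)`, `f (e, 2)` have sign zero, `f (e, 3)` has
the sign vector `tw e` -/
def Pla {k m : ℕ} (a : Fin (4 * m) → Fin k → ZMod 2) (f : Pr k × Fin 4 → Fin (4 * m)) : Prop :=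
  Function.Injective f ∧ ∀ (e : Pr k) (r : Fin 4), a (f (e, r)) = if r = 3 then tw e else 0

/-- signs and labels are uniform for all pairs of rows -/
def Uni {k m : ℕ} (a : Fin (4 * m) → Fin k → ZMod 2)
    (L : Fin (4 * m) → Fin k → Fin k → ZMod m) : Prop :=
  ∀ l l' : Fin k, l ≠ l' → ∀ (ε : ZMod 2) (c : ZMod m),
    (univ.filter (fun s => a s l - a s l' = ε ∧ L s l l' = c)).card = 2

/-! ## Rows -/

/-- SGN. The sign vectors. -/
def T_SGN : Prop := ∀ k : ℕ, ∃ m₀ : ℕ, ∀ m : ℕ, m₀ ≤ m →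
  ∃ (a : Fin (4 * m) → Fin k → ZMod 2) (f : Pr k × Fin 4 → Fin (4 * m)), Bal a ∧ Pla a f

/-- LAB. The labels. -/
def T_LAB : Prop := ∀ (k m : ℕ) (ν : ZMod m) (a : Fin (4 * m) → Fin k → ZMod 2)
  (f : Pr k × Fin 4 → Fin (4 * m)), 4 * k ^ 2 < m → ν + ν = 0 → Bal a → Pla a f →
  ∃ (L : Fin (4 * m) → Fin k → Fin k → ZMod m) (lam mu : Pr k → ZMod m),
    Uni a L ∧ (∀ s l l', l ≠ l' → L s l' l = L s l l' + ν) ∧
    (∀ e : Pr k, L (f (e, 0)) e.1.1 e.1.2 = lam e ∧ L (f (e, 2)) e.1.1 e.1.2 = mu e) ∧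
    (∀ (e : Pr k) (l l' : Fin k), l ≠ l' →
      L (f (e, 1)) l l' = L (f (e, 0)) (sw e l) (sw e l') ∧
      L (f (e, 3)) l l' = L (f (e, 2)) (sw e l) (sw e l'))

/-- CHI. The label homomorphism. -/
def T_CHI : Prop := ∀ (p m : ℕ) [Fact p.Prime], 0 < m → p ≡ 1 [MOD m] →
  ∃ χ : (ZMod p)ˣ →* Multiplicative (ZMod m), Function.Surjective χ

open Classical in
/-- MOM. The second moment of the number of the neighbours of a given label. -/
def T_MOM : Prop := ∀ (p m : ℕ) [Fact p.Prime] [NeZero m]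
  (χ : (ZMod p)ˣ →* Multiplicative (ZMod m)), Function.Surjective χ → ∀ Y : Finset (ZMod p),
  ∑ x : ZMod p, ∑ c : ZMod m, (((Y.filter (fun y => Lb χ (x - y) c)).card : ℝ) -
    ((Y.erase x).card : ℝ) / m) ^ 2 ≤ p * Y.card

/-- EMB. Every labelling of the pairs is realised by a vector. -/
def T_EMB : Prop := ∀ k m : ℕ, 0 < m → ∃ p₀ : ℕ, ∀ (p : ℕ) [Fact p.Prime], p₀ ≤ p →
  ∀ χ : (ZMod p)ˣ →* Multiplicative (ZMod m), Function.Surjective χ →
  ∀ L : Fin k → Fin k → ZMod m, ∃ b : Fin k → ZMod p,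
    ∀ l l' : Fin k, l < l' → Lb χ (b l - b l') (L l l')

open Classical in
/-- BLK. The differences in the orbits. -/
def T_BLK : Prop := ∀ (k m p : ℕ) [Fact p.Prime] [NeZero m]
  (χ : (ZMod p)ˣ →* Multiplicative (ZMod m)), Function.Surjective χ →
  ∀ (a : Fin (4 * m) → Fin k → ZMod 2) (b : Fin (4 * m) → Fin k → ZMod p)
  (L : Fin (4 * m) → Fin k → Fin k → ZMod m), Uni a L →
  (∀ s l l', l ≠ l' → Lb χ (b s l - b s l') (L s l l')) →
  ∀ l l' : Fin k, l ≠ l' → ∀ g : ZMod 2 × ZMod p,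
    (univ.filter (fun x : Fin (4 * m) × χ.ker =>
      (a x.1 l - a x.1 l', ((x.2 : (ZMod p)ˣ) : ZMod p) * b x.1 l -
        ((x.2 : (ZMod p)ˣ) : ZMod p) * b x.1 l') = g)).card = if g.2 = 0 then 0 else 2

/-- the new columns which replace the planted ones, from `V` and `U` -/
def nw {p k : ℕ} (e : Pr k) (V U : Fin k → ZMod p) (r : Fin 4) (l : Fin k) : ZMod 2 × ZMod p :=
  match r with
  | 0 => (0, if l = e.1.1 then V e.1.2 else V l)
  | 1 => (0, if l = e.1.2 then V e.1.1 else V l)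
  | 2 => (if l = e.1.1 then 1 else 0, if l = e.1.1 then U e.1.2 else U l)
  | 3 => (if l = e.1.2 then 1 else 0, if l = e.1.2 then U e.1.1 else U l)

/-- the planted columns -/
def od {p k : ℕ} (e : Pr k) (V U : Fin k → ZMod p) (r : Fin 4) (l : Fin k) : ZMod 2 × ZMod p :=
  match r with
  | 0 => (0, V l)
  | 1 => (0, V (sw e l))
  | 2 => (0, U l)
  | 3 => (tw e l, U (sw e l))

/-- GAD. The gadgets. -/
def T_GAD : Prop := ∀ (p k : ℕ) (e : Pr k) (V U : Fin k → ZMod p) (l l' : Fin k), l < l' →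
  ∀ g : ZMod 2 × ZMod p,
  ∑ r : Fin 4, (((if nw e V U r l - nw e V U r l' = g then 1 else 0 : ℤ)) -
    (if od e V U r l - od e V U r l' = g then 1 else 0)) =
  if e.1 = (l, l') then
    2 * (if g = (0, 0) then 1 else 0) + 2 * (if g = (1, 0) then 1 else 0) -
    (if g = (0, V l - V l') then 1 else 0) - (if g = (0, V l' - V l) then 1 else 0) -
    (if g = (0, U l - U l') then 1 else 0) - (if g = (0, U l' - U l) then 1 else 0)
  else 0

/-- a difference matrix over `ZMod 2 × ZMod p` on a finite type of columns -/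
def HasD (p k : ℕ) : Prop := ∃ (I : Type) (_ : Fintype I) (D : Fin k → I → ZMod 2 × ZMod p),
  Fintype.card I = 4 * p ∧ ∀ i j : Fin k, i < j → ∀ g : ZMod 2 × ZMod p,
    (univ.filter (fun x => D i x - D j x = g)).card = 2

/-- ASM. The assembly. -/
def T_ASM : Prop := ∀ (k m p : ℕ) [Fact p.Prime] [NeZero m]
  (χ : (ZMod p)ˣ →* Multiplicative (ZMod m)), Function.Surjective χ →
  ∀ (a : Fin (4 * m) → Fin k → ZMod 2) (f : Pr k × Fin 4 → Fin (4 * m))
  (b : Fin (4 * m) → Fin k → ZMod p) (L : Fin (4 * m) → Fin k → Fin k → ZMod m)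
  (w w' : Fin k → ZMod p), Pla a f → Uni a L →
  (∀ s l l', l ≠ l' → Lb χ (b s l - b s l') (L s l l')) →
  (∀ (e : Pr k) (l : Fin k), b (f (e, 1)) l = b (f (e, 0)) (sw e l) ∧
    b (f (e, 3)) l = b (f (e, 2)) (sw e l)) →
  (∀ e : Pr k, b (f (e, 0)) e.1.1 - b (f (e, 0)) e.1.2 = w e.1.1 - w e.1.2 ∧
    b (f (e, 2)) e.1.1 - b (f (e, 2)) e.1.2 = w' e.1.1 - w' e.1.2) → HasD p k

/-- CRT. From `ZMod 2 × ZMod p` to `ZMod (2 * p)`. -/
def T_CRT : Prop := ∀ p k : ℕ, p.Prime → 2 < p → HasD p k → HasDM p k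

/-- CHO. The choice of the base columns. -/
def T_CHO : Prop := ∀ (k m : ℕ) (a : Fin (4 * m) → Fin k → ZMod 2)
  (f : Pr k × Fin 4 → Fin (4 * m)), 0 < m → 4 * k ^ 2 < m → Bal a → Pla a f →
  ∃ p₀ : ℕ, ∀ p : ℕ, p.Prime → p₀ ≤ p → p ≡ 1 [MOD m] → HasD p k

/-- ONE. The first theorem. -/
def T_ONE : Prop := ∀ k : ℕ, ∃ m₀ : ℕ, ∀ m : ℕ, m₀ ≤ m → ∃ p₀ : ℕ, ∀ p : ℕ, p.Prime → p₀ ≤ p →
  p ≡ 1 [MOD m] → HasDM p k

open Classical in
/-- TWO. The second theorem. -/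
def T_TWO : Prop := ∀ k : ℕ, Filter.Tendsto (fun x : ℕ =>
  ((((Finset.Icc 1 x).filter (fun p => p.Prime ∧ ¬ HasDM p k)).card : ℝ)) / Nat.primeCounting x)
  Filter.atTop (nhds 0)

end Pool.Agent.H51.DM
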